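import Pool.Agent.Helper80.AD.GoalsA

/-! MP_6af536_nt, project AD: EEB (the value at `x + none`). -/

set_option autoImplicit false

noncomputable section

namespace Pool.Agent.Helper49.AD

open Pool.Agent.Helper80.AD

theorem eeb (hEEM : S_EEM) : S_EEB := by
  classical
  intro k X E hE x
  obtain ⟨h1, h2, -, -⟩ := hEEM k (Option X) E
  set b : Bool → Option X := fun i => if i then none else some x with hb
  have key := h1 Bool (fun _ _ => 1) (fun _ i => Finsupp.single (b i) 1)
  have hl : (fun _ : Fin (k + 1) => ∑ i : Bool, (1 : ℝ) • Finsupp.single (b i) (1 : ℝ)) =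
      fun _ => Finsupp.single (some x) 1 + Finsupp.single none 1 := by
    funext j
    simp [hb, add_comm]
  rw [hl] at key
  rw [key]
  have hr : ∀ I : Fin (k + 1) → Bool, (∏ _j : Fin (k + 1), (1 : ℝ)) *
      EE E (fun j => Finsupp.single (b (I j)) 1) = E (fun j => b (I j)) := by
    intro I
    rw [Finset.prod_const_one, one_mul]
    exact h2 fun j => b (I j)
  rw [Finset.sum_congr rfl fun I _ => hr I]
  set u : Fin (k + 1) → Fin (k + 1) → Bool := fun i => Function.update (fun _ => false) i true with hu
  have huinj : Function.Injective u := by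
    intro i j hij
    by_contra hne
    have h3 := congrFun hij i
    simp only [hu, Function.update_self, Function.update_of_ne hne] at h3
    exact absurd h3 (by decide)
  set S : Finset (Fin (k + 1) → Bool) := insert (fun _ => false) (Finset.univ.image u) with hS
  have hnot : (fun _ => false) ∉ Finset.univ.image u := by
    intro hmem
    rw [Finset.mem_image] at hmem
    obtain ⟨i, -, hi⟩ := hmem
    have h3 := congrFun hi i
    simp only [hu, Function.update_self] at h3
    exact absurd h3 (by decide)
  have hsub : ∑ I ∈ S, E (fun j => b (I j)) = ∑ I : Fin (k + 1) → Bool, E (fun j => b (I j)) := by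
    refine Finset.sum_subset (Finset.subset_univ S) fun I _ hI => ?_
    rw [hS, Finset.mem_insert, not_or] at hI
    obtain ⟨hI1, hI2⟩ := hI
    have h4 : ∃ i, I i = true := by
      by_contra hcon
      push Not at hcon
      exact hI1 (funext fun i => by simpa using hcon i)
    obtain ⟨i, hi⟩ := h4
    have h5 : ∃ j, j ≠ i ∧ I j = true := by
      by_contra hcon
      push Not at hcon
      refine hI2 (Finset.mem_image.2 ⟨i, Finset.mem_univ i, ?_⟩)
      funext j
      rcases eq_or_ne j i with rfl | hji
      · simp [hu, hi]
      · have := hcon j hji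
        simp [hu, Function.update_of_ne hji, Bool.eq_false_iff.2 this]
    obtain ⟨j, hji, hj⟩ := h5
    exact hE _ i j hji.symm (by simp [hb, hi]) (by simp [hb, hj])
  rw [← hsub, hS, Finset.sum_insert hnot, Finset.sum_image fun i _ j _ hij => huinj hij]
  have h6 : (fun j : Fin (k + 1) => b ((fun _ : Fin (k + 1) => false) j)) = fun _ => some x := by
    funext j
    simp [hb]
  have h7 : ∀ i : Fin (k + 1), (fun j => b (u i j)) =
      Function.update (fun _ => some x) i none := by
    intro i
    funext j
    rcases eq_or_ne j i with rfl | hji
    · simp [hu, hb]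
    · simp [hu, hb, Function.update_of_ne hji]
  rw [h6]
  congr 1
  exact Finset.sum_congr rfl fun i _ => by rw [h7 i]

end Pool.Agent.Helper49.AD
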