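import Pool.Agent.Helper88.AD.Stmts

/-!
MP_ccb3f4_gt, packet AD-WS, part 1: the operator identity behind 6T.
-/

set_option autoImplicit false

namespace Pool.Agent.Helper49.AD

open Pool.Agent.Helper88.AD

section ops

variable {d : ℕ} {K E : Type} [AddCommGroup E] [Module ℚ E]

/-- Put the name `k` into the slot `x`. -/
noncomputable def S (x : Fin d) (k : K) : Module.End ℚ (St d K E) :=
  Finsupp.lmapDomain E ℚ (fun n => Function.update n x k)

/-- Apply `a` to all values. -/
noncomputable def A (d : ℕ) (K : Type) (a : Module.End ℚ E) : Module.End ℚ (St d K E) :=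
  Finsupp.mapRange.linearMap a

theorem S_single (x : Fin d) (k : K) (n : Fin d → K) (v : E) :
    S x k (Finsupp.single n v) = Finsupp.single (Function.update n x k) v := by
  simp [S]

theorem A_single (a : Module.End ℚ E) (n : Fin d → K) (v : E) :
    A d K a (Finsupp.single n v) = Finsupp.single n (a v) := by
  simp [A]

theorem A_mul (a b : Module.End ℚ E) (s : St d K E) :
    A d K (a * b) s = A d K a (A d K b s) := by
  have : A d K (a * b) = A d K a ∘ₗ A d K b := by
    apply Finsupp.lhom_ext
    intro n v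
    rw [LinearMap.comp_apply, A_single, A_single, A_single]
    rfl
  rw [this]
  rfl

theorem A_sub (a b : Module.End ℚ E) (s : St d K E) :
    A d K (a - b) s = A d K a s - A d K b s := by
  have : A d K (a - b) = A d K a - A d K b := by
    apply Finsupp.lhom_ext
    intro n v
    rw [LinearMap.sub_apply, A_single, A_single, A_single, LinearMap.sub_apply,
      Finsupp.single_sub]
  rw [this]
  rfl

theorem A_add (a b : Module.End ℚ E) (s : St d K E) :
    A d K (a + b) s = A d K a s + A d K b s := by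
  have : A d K (a + b) = A d K a + A d K b := by
    apply Finsupp.lhom_ext
    intro n v
    rw [LinearMap.add_apply, A_single, A_single, A_single, LinearMap.add_apply,
      Finsupp.single_add]
  rw [this]
  rfl

theorem A_smul (c : ℚ) (a : Module.End ℚ E) (s : St d K E) :
    A d K (c • a) s = c • A d K a s := by
  have : A d K (c • a) = c • A d K a := by
    apply Finsupp.lhom_ext
    intro n v
    rw [LinearMap.smul_apply, A_single, A_single, LinearMap.smul_apply,
      Finsupp.smul_single]
  rw [this]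
  rfl

theorem hd_single (h : E →ₗ[ℚ] (K →₀ E)) (z : Fin d) (n : Fin d → K) (v : E) :
    hd h z (Finsupp.single n v) =
      (h v).sum fun l v' => Finsupp.single (Function.update n z l) v' := by
  rw [hd, Finsupp.lsum_single]
  rfl

theorem ac_single (act : K → Module.End ℚ E) (k₀ : K) (z : Fin d) (n : Fin d → K) (v : E) :
    ac act k₀ z (Finsupp.single n v) =
      Finsupp.single (Function.update n z k₀) (act (n z) v) := by
  rw [ac, Finsupp.lsum_single]
  rfl

theorem hd_S (h : E →ₗ[ℚ] (K →₀ E)) {x z : Fin d} (hxz : z ≠ x) (k : K) (s : St d K E) :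
    hd h z (S x k s) = S x k (hd h z s) := by
  have : hd h z ∘ₗ S x k = S x k ∘ₗ hd h z := by
    apply Finsupp.lhom_ext
    intro n v
    rw [LinearMap.comp_apply, LinearMap.comp_apply, S_single, hd_single, hd_single,
      map_finsuppSum]
    refine Finsupp.sum_congr fun l _ => ?_
    rw [S_single, Function.update_comm hxz]
  exact LinearMap.congr_fun this s

theorem ac_S (act : K → Module.End ℚ E) (k₀ : K) {x z : Fin d} (hxz : z ≠ x) (k : K)
    (s : St d K E) : ac act k₀ z (S x k s) = S x k (ac act k₀ z s) := by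
  have : ac act k₀ z ∘ₗ S x k = S x k ∘ₗ ac act k₀ z := by
    apply Finsupp.lhom_ext
    intro n v
    rw [LinearMap.comp_apply, LinearMap.comp_apply, S_single, ac_single, ac_single, S_single,
      Function.update_comm hxz, Function.update_of_ne hxz]
  exact LinearMap.congr_fun this s

theorem S_S {x y : Fin d} (hxy : x ≠ y) (k l : K) (s : St d K E) :
    S x k (S y l s) = S y l (S x k s) := by
  have : S x k ∘ₗ S y l = (S y l ∘ₗ S x k : Module.End ℚ (St d K E)) := by
    apply Finsupp.lhom_ext
    intro n v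
    rw [LinearMap.comp_apply, LinearMap.comp_apply, S_single, S_single, S_single, S_single,
      Function.update_comm hxy]
  exact LinearMap.congr_fun this s

theorem S_idem (x : Fin d) (k l : K) (s : St d K E) : S x k (S x l s) = S x k s := by
  have : S x k ∘ₗ S x l = (S x k : Module.End ℚ (St d K E)) := by
    apply Finsupp.lhom_ext
    intro n v
    rw [LinearMap.comp_apply, S_single, S_single, S_single, Function.update_idem]
  exact LinearMap.congr_fun this s

theorem A_S (a : Module.End ℚ E) (x : Fin d) (k : K) (s : St d K E) :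
    A d K a (S x k s) = S x k (A d K a s) := by
  have : A d K a ∘ₗ S x k = (S x k ∘ₗ A d K a : Module.End ℚ (St d K E)) := by
    apply Finsupp.lhom_ext
    intro n v
    rw [LinearMap.comp_apply, LinearMap.comp_apply, S_single, A_single, A_single, S_single]
  exact LinearMap.congr_fun this s

theorem ac_self (act : K → Module.End ℚ E) (k₀ : K) (x : Fin d) (p : K) (s : St d K E) :
    ac act k₀ x (S x p s) = S x k₀ (A d K (act p) s) := by
  have : ac act k₀ x ∘ₗ S x p = S x k₀ ∘ₗ A d K (act p) := by
    apply Finsupp.lhom_ext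
    intro n v
    rw [LinearMap.comp_apply, LinearMap.comp_apply, S_single, A_single, S_single, ac_single,
      Function.update_idem, Function.update_self]
  exact LinearMap.congr_fun this s

theorem hd_S_single (h : E →ₗ[ℚ] (K →₀ E)) (x : Fin d) (n : Fin d → K) (v : E) :
    hd h x (Finsupp.single n v) = (h v).sum fun l v' => S x l (Finsupp.single n v') := by
  rw [hd_single]
  refine Finsupp.sum_congr fun l _ => ?_
  rw [S_single]

end ops

section key

variable {d : ℕ} {K E : Type} [AddCommGroup E] [Module ℚ E]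
  {act : K → Module.End ℚ E} {h : E →ₗ[ℚ] (K →₀ E)} {dl : K → (K × K →₀ ℚ)} {k₀ : K}

/-- The relation R1 at the level of states. -/
theorem R1_state (h1 : R1 h dl) {x y : Fin d} (hxy : x ≠ y) (n : Fin d → K) (v : E) :
    hd h x (hd h y (Finsupp.single n v)) - hd h y (hd h x (Finsupp.single n v)) =
      (h v).sum fun l v' => (dl l).sum fun pq c =>
        S x pq.1 (S y pq.2 (Finsupp.single n (c • v'))) := by
  let P : (K × K →₀ E) →ₗ[ℚ] St d K E :=
    Finsupp.lsum ℚ fun pq => S x pq.1 ∘ₗ S y pq.2 ∘ₗ Finsupp.lsingle n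
  have hP : ∀ pq v', P (Finsupp.single pq v') = S x pq.1 (S y pq.2 (Finsupp.single n v')) := by
    intro pq v'
    show (Finsupp.lsum ℚ fun pq : K × K => S x pq.1 ∘ₗ S y pq.2 ∘ₗ Finsupp.lsingle n)
      (Finsupp.single pq v') = _
    rw [Finsupp.lsum_single]
    rfl
  have h2 := congrArg P (h1 v)
  rw [map_sub, map_finsuppSum, map_finsuppSum, map_finsuppSum] at h2
  have e1 : hd h x (hd h y (Finsupp.single n v)) =
      (h v).sum fun q v' => P ((h v').mapDomain fun p => (p, q)) := by
    rw [hd_single, map_finsuppSum]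
    refine Finsupp.sum_congr fun q _ => ?_
    rw [hd_single, Finsupp.mapDomain, map_finsuppSum]
    refine Finsupp.sum_congr fun p _ => ?_
    rw [hP, S_single, S_single]
  have e2 : hd h y (hd h x (Finsupp.single n v)) =
      (h v).sum fun q v' => P ((h v').mapDomain fun p => (q, p)) := by
    rw [hd_single, map_finsuppSum]
    refine Finsupp.sum_congr fun q _ => ?_
    rw [hd_single, Finsupp.mapDomain, map_finsuppSum]
    refine Finsupp.sum_congr fun p _ => ?_
    rw [hP, S_single, S_single, Function.update_comm hxy]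
  rw [e1, e2, h2]
  refine Finsupp.sum_congr fun l _ => ?_
  rw [map_finsuppSum]
  refine Finsupp.sum_congr fun pq _ => ?_
  rw [hP]

open TensorProduct in
/-- The relation R2 at the level of states. -/
theorem R2_state (h2 : R2 act h dl) (U : Module.End ℚ (St d K E)) (l : K) (m : Fin d → K)
    (w : E) :
    ((h (act l w)).sum fun p w' => A d K (act p) (U (Finsupp.single m w'))) =
      ((h w).sum fun p w' => A d K (act p) (U (Finsupp.single m (act l w')))) +
      ((h w).sum fun p w' => A d K (act l * act p - act p * act l) (U (Finsupp.single m w'))) -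
      ((dl l).sum fun pq c => c • A d K (act pq.1) (U (Finsupp.single m (act pq.2 w)))) := by
  let G : Module.End ℚ E ⊗[ℚ] E →ₗ[ℚ] St d K E :=
    TensorProduct.lift (LinearMap.mk₂ ℚ (fun a w' => A d K a (U (Finsupp.single m w')))
      (fun a b w' => A_add a b _) (fun c a w' => A_smul c a _)
      (fun a w' w'' => by rw [Finsupp.single_add, map_add, map_add])
      (fun c a w' => by rw [← Finsupp.smul_single, map_smul, map_smul]))
  have hG : ∀ a w', G (a ⊗ₜ[ℚ] w') = A d K a (U (Finsupp.single m w')) := by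
    intro a w'
    rfl
  have h3 := congrArg G (h2 l w)
  rw [map_sub, map_add, map_finsuppSum, map_finsuppSum, map_finsuppSum, map_finsuppSum] at h3
  simp only [hG, map_smul] at h3
  exact h3

/-- Commuting with the renaming of a slot. -/
def Cm (U : Module.End ℚ (St d K E)) (x : Fin d) : Prop := ∀ (k : K) (s : St d K E),
  U (S x k s) = S x k (U s)

/-- The first two terms. -/
theorem two_terms (h2 : R2 act h dl) {x y : Fin d} (hxy : x ≠ y)
    {U : Module.End ℚ (St d K E)} (hUx : Cm U x) (hUy : Cm U y) (l : K) (r : St d K E) :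
    let t := S x k₀ (S y k₀ r)
    ac act k₀ x (ac act k₀ y (U (hd h x (S y l t)))) -
        ac act k₀ y (ac act k₀ x (U (hd h x (S y l t)))) +
      ac act k₀ x (U (hd h x (ac act k₀ y (S y l t)) - ac act k₀ y (hd h x (S y l t)))) =
    - (dl l).sum fun pq c => c • A d K (act pq.1) (U (A d K (act pq.2) t)) := by
  intro t
  -- both sides are linear in `r`
  let F : Module.End ℚ (St d K E) :=
    (ac act k₀ x ∘ₗ ac act k₀ y ∘ₗ U ∘ₗ hd h x ∘ₗ S y l -
      ac act k₀ y ∘ₗ ac act k₀ x ∘ₗ U ∘ₗ hd h x ∘ₗ S y l +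
      ac act k₀ x ∘ₗ U ∘ₗ (hd h x ∘ₗ ac act k₀ y ∘ₗ S y l - ac act k₀ y ∘ₗ hd h x ∘ₗ S y l) +
      ∑ pq ∈ (dl l).support, (dl l pq) • (A d K (act pq.1) ∘ₗ U ∘ₗ A d K (act pq.2))) ∘ₗ
      S x k₀ ∘ₗ S y k₀
  suffices hF : F = 0 by
    have := LinearMap.congr_fun hF r
    have h3 : F r = (ac act k₀ x (ac act k₀ y (U (hd h x (S y l t)))) -
        ac act k₀ y (ac act k₀ x (U (hd h x (S y l t)))) +
      ac act k₀ x (U (hd h x (ac act k₀ y (S y l t)) - ac act k₀ y (hd h x (S y l t))))) +
      (dl l).sum fun pq c => c • A d K (act pq.1) (U (A d K (act pq.2) t)) := by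
      simp only [F, LinearMap.comp_apply, LinearMap.add_apply, LinearMap.sub_apply,
        LinearMap.sum_apply, LinearMap.smul_apply, Finsupp.sum]
      rfl
    rw [h3] at this
    exact eq_neg_of_add_eq_zero_left this
  apply Finsupp.lhom_ext
  intro m₀ w
  set m := Function.update (Function.update m₀ y k₀) x k₀ with hm
  have ht : (S x k₀ (S y k₀ (Finsupp.single m₀ w)) : St d K E) = Finsupp.single m w := by
    rw [S_single, S_single]
  have hSx : ∀ w' : E, (S x k₀ (Finsupp.single m w') : St d K E) = Finsupp.single m w' := by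
    intro w'
    rw [S_single, hm, Function.update_idem]
  have hSy : ∀ w' : E, (S y k₀ (Finsupp.single m w') : St d K E) = Finsupp.single m w' := by
    intro w'
    rw [S_single, hm, Function.update_comm hxy, Function.update_idem]
  have hSxU : ∀ w' : E, S x k₀ (U (Finsupp.single m w')) = U (Finsupp.single m w') := by
    intro w'
    rw [← hUx, hSx]
  have hSyU : ∀ w' : E, S y k₀ (U (Finsupp.single m w')) = U (Finsupp.single m w') := by
    intro w'
    rw [← hUy, hSy]
  -- `R_x S_y^l t`
  have e1 : hd h x (S y l (Finsupp.single m w)) =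
      (h w).sum fun p w' => S x p (S y l (Finsupp.single m w')) := by
    rw [hd_S h hxy, hd_S_single, map_finsuppSum]
    refine Finsupp.sum_congr fun p _ => ?_
    rw [S_S hxy]
  have e2 : U (hd h x (S y l (Finsupp.single m w))) =
      (h w).sum fun p w' => S x p (S y l (U (Finsupp.single m w'))) := by
    rw [e1, map_finsuppSum]
    refine Finsupp.sum_congr fun p _ => ?_
    rw [hUx, hUy]
  have t1 : ac act k₀ x (ac act k₀ y (U (hd h x (S y l (Finsupp.single m w))))) =
      (h w).sum fun p w' => A d K (act p * act l) (U (Finsupp.single m w')) := by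
    rw [e2, map_finsuppSum, map_finsuppSum]
    refine Finsupp.sum_congr fun p _ => ?_
    rw [ac_S act k₀ hxy.symm, ac_self, ac_self, A_mul, ← A_S, ← A_S, hSyU, ← A_S, hSxU]
  have t2 : ac act k₀ y (ac act k₀ x (U (hd h x (S y l (Finsupp.single m w))))) =
      (h w).sum fun p w' => A d K (act l * act p) (U (Finsupp.single m w')) := by
    rw [e2, map_finsuppSum, map_finsuppSum]
    refine Finsupp.sum_congr fun p _ => ?_
    rw [ac_self, A_S, ← S_S hxy.symm, ac_self, A_mul, ← A_S, ← A_S, ← A_S, hSxU, hSyU]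
  have t3 : ac act k₀ x (U (hd h x (ac act k₀ y (S y l (Finsupp.single m w))))) =
      (h (act l w)).sum fun p w' => A d K (act p) (U (Finsupp.single m w')) := by
    rw [ac_self, A_single, hSy, hd_S_single, map_finsuppSum, map_finsuppSum]
    refine Finsupp.sum_congr fun p _ => ?_
    rw [hUx, ac_self, ← A_S, hSxU]
  have t4 : ac act k₀ x (U (ac act k₀ y (hd h x (S y l (Finsupp.single m w))))) =
      (h w).sum fun p w' => A d K (act p) (U (Finsupp.single m (act l w'))) := by
    rw [e1, map_finsuppSum, map_finsuppSum, map_finsuppSum]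
    refine Finsupp.sum_congr fun p _ => ?_
    rw [ac_S act k₀ hxy.symm, ac_self, A_single, hSy, hUx, ac_self, ← A_S, hSxU]
  have t5 := R2_state h2 U l m w
  have t6 : ((h w).sum fun p w' => A d K (act l * act p - act p * act l)
      (U (Finsupp.single m w'))) =
      ((h w).sum fun p w' => A d K (act l * act p) (U (Finsupp.single m w'))) -
      ((h w).sum fun p w' => A d K (act p * act l) (U (Finsupp.single m w'))) := by
    rw [← Finsupp.sum_sub]
    refine Finsupp.sum_congr fun p _ => ?_
    rw [A_sub]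
  have t7 : ((dl l).sum fun pq c => c • A d K (act pq.1) (U (Finsupp.single m (act pq.2 w)))) =
      ∑ pq ∈ (dl l).support, (dl l pq) • (A d K (act pq.1) (U (A d K (act pq.2)
        (Finsupp.single m w)))) := by
    rw [Finsupp.sum]
    refine Finset.sum_congr rfl fun pq _ => ?_
    rw [A_single]
  show (ac act k₀ x (ac act k₀ y (U (hd h x (S y l (S x k₀ (S y k₀ (Finsupp.single m₀ w))))))) -
      ac act k₀ y (ac act k₀ x (U (hd h x (S y l (S x k₀ (S y k₀ (Finsupp.single m₀ w))))))) +
      ac act k₀ x (U (hd h x (ac act k₀ y (S y l (S x k₀ (S y k₀ (Finsupp.single m₀ w))))) -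
        ac act k₀ y (hd h x (S y l (S x k₀ (S y k₀ (Finsupp.single m₀ w)))))))) +
      (∑ pq ∈ (dl l).support, (dl l pq) • (A d K (act pq.1) ∘ₗ U ∘ₗ A d K (act pq.2)))
        (S x k₀ (S y k₀ (Finsupp.single m₀ w))) = 0
  rw [ht, LinearMap.sum_apply]
  simp only [LinearMap.smul_apply, LinearMap.comp_apply, map_sub]
  rw [t1, t2, t3, t4, ← t7, t5, t6]
  abel

/-- The identity behind 6T. -/
theorem key (h1 : R1 h dl) (h2 : R2 act h dl) {x y : Fin d} (hxy : x ≠ y)
    {U V : Module.End ℚ (St d K E)} (hUx : Cm U x) (hUy : Cm U y) (hVx : Cm V x)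
    (hVy : Cm V y) (s : St d K E) (hsx : S x k₀ s = s) (hsy : S y k₀ s = s) :
    (ac act k₀ x (ac act k₀ y (U (hd h x (V (hd h y s))))) -
        ac act k₀ y (ac act k₀ x (U (hd h x (V (hd h y s)))))) +
      (ac act k₀ x (U (hd h x (ac act k₀ y (V (hd h y s))))) -
        ac act k₀ x (U (ac act k₀ y (hd h x (V (hd h y s)))))) +
      (ac act k₀ x (U (ac act k₀ y (V (hd h x (hd h y s))))) -
        ac act k₀ x (U (ac act k₀ y (V (hd h y (hd h x s)))))) = 0 := by
  let F : Module.End ℚ (St d K E) :=
    ((ac act k₀ x ∘ₗ ac act k₀ y ∘ₗ U ∘ₗ hd h x ∘ₗ V ∘ₗ hd h y -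
      ac act k₀ y ∘ₗ ac act k₀ x ∘ₗ U ∘ₗ hd h x ∘ₗ V ∘ₗ hd h y) +
    (ac act k₀ x ∘ₗ U ∘ₗ hd h x ∘ₗ ac act k₀ y ∘ₗ V ∘ₗ hd h y -
      ac act k₀ x ∘ₗ U ∘ₗ ac act k₀ y ∘ₗ hd h x ∘ₗ V ∘ₗ hd h y) +
    (ac act k₀ x ∘ₗ U ∘ₗ ac act k₀ y ∘ₗ V ∘ₗ hd h x ∘ₗ hd h y -
      ac act k₀ x ∘ₗ U ∘ₗ ac act k₀ y ∘ₗ V ∘ₗ hd h y ∘ₗ hd h x)) ∘ₗ S x k₀ ∘ₗ S y k₀
  suffices hF : F = 0 by
    have h3 := LinearMap.congr_fun hF s
    have h4 : F s = (ac act k₀ x (ac act k₀ y (U (hd h x (V (hd h y (S x k₀ (S y k₀ s))))))) -
        ac act k₀ y (ac act k₀ x (U (hd h x (V (hd h y (S x k₀ (S y k₀ s)))))))) +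
      (ac act k₀ x (U (hd h x (ac act k₀ y (V (hd h y (S x k₀ (S y k₀ s))))))) -
        ac act k₀ x (U (ac act k₀ y (hd h x (V (hd h y (S x k₀ (S y k₀ s)))))))) +
      (ac act k₀ x (U (ac act k₀ y (V (hd h x (hd h y (S x k₀ (S y k₀ s))))))) -
        ac act k₀ x (U (ac act k₀ y (V (hd h y (hd h x (S x k₀ (S y k₀ s)))))))) := rfl
    rw [h4, hsy, hsx] at h3
    exact h3
  apply Finsupp.lhom_ext
  intro n₀ v
  set n := Function.update (Function.update n₀ y k₀) x k₀ with hn
  have ht : (S x k₀ (S y k₀ (Finsupp.single n₀ v)) : St d K E) = Finsupp.single n v := by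
    rw [S_single, S_single]
  have hSx : ∀ w' : E, (S x k₀ (Finsupp.single n w') : St d K E) = Finsupp.single n w' := by
    intro w'
    rw [S_single, hn, Function.update_idem]
  have hSy : ∀ w' : E, (S y k₀ (Finsupp.single n w') : St d K E) = Finsupp.single n w' := by
    intro w'
    rw [S_single, hn, Function.update_comm hxy, Function.update_idem]
  have hSxV : ∀ w' : E, S x k₀ (V (Finsupp.single n w')) = V (Finsupp.single n w') := by
    intro w'
    rw [← hVx, hSx]
  have hSyV : ∀ w' : E, S y k₀ (V (Finsupp.single n w')) = V (Finsupp.single n w') := by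
    intro w'
    rw [← hVy, hSy]
  show (ac act k₀ x (ac act k₀ y (U (hd h x (V (hd h y (S x k₀ (S y k₀ (Finsupp.single n₀ v)))))))) -
        ac act k₀ y (ac act k₀ x (U (hd h x (V (hd h y (S x k₀ (S y k₀ (Finsupp.single n₀ v))))))))) +
      (ac act k₀ x (U (hd h x (ac act k₀ y (V (hd h y (S x k₀ (S y k₀ (Finsupp.single n₀ v)))))))) -
        ac act k₀ x (U (ac act k₀ y (hd h x (V (hd h y (S x k₀ (S y k₀ (Finsupp.single n₀ v))))))))) +
      (ac act k₀ x (U (ac act k₀ y (V (hd h x (hd h y (S x k₀ (S y k₀ (Finsupp.single n₀ v)))))))) -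
        ac act k₀ x (U (ac act k₀ y (V (hd h y (hd h x (S x k₀ (S y k₀
          (Finsupp.single n₀ v)))))))))  = 0
  rw [ht]
  -- `V R_y s`
  have e1 : V (hd h y (Finsupp.single n v)) =
      (h v).sum fun l v' => S y l (V (Finsupp.single n v')) := by
    rw [hd_S_single, map_finsuppSum]
    refine Finsupp.sum_congr fun l _ => ?_
    rw [hVy]
  -- the first two terms
  have e2 : (ac act k₀ x (ac act k₀ y (U (hd h x (V (hd h y (Finsupp.single n v)))))) -
        ac act k₀ y (ac act k₀ x (U (hd h x (V (hd h y (Finsupp.single n v))))))) +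
      (ac act k₀ x (U (hd h x (ac act k₀ y (V (hd h y (Finsupp.single n v)))))) -
        ac act k₀ x (U (ac act k₀ y (hd h x (V (hd h y (Finsupp.single n v))))))) =
      (h v).sum fun l v' => - (dl l).sum fun pq c =>
        c • A d K (act pq.1) (U (A d K (act pq.2) (V (Finsupp.single n v')))) := by
    rw [e1]
    simp only [map_finsuppSum]
    rw [← Finsupp.sum_sub, ← Finsupp.sum_sub, ← Finsupp.sum_add]
    refine Finsupp.sum_congr fun l _ => ?_
    have h5 := two_terms (k₀ := k₀) h2 hxy hUx hUy l (V (Finsupp.single n ((h v) l)))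
    simp only [hSyV, hSxV, map_sub] at h5
    exact h5
  -- the third term
  have e3 : (ac act k₀ x (U (ac act k₀ y (V (hd h x (hd h y (Finsupp.single n v)))))) -
        ac act k₀ x (U (ac act k₀ y (V (hd h y (hd h x (Finsupp.single n v))))))) =
      (h v).sum fun l v' => (dl l).sum fun pq c =>
        c • A d K (act pq.1) (U (A d K (act pq.2) (V (Finsupp.single n v')))) := by
    rw [← map_sub, ← map_sub, ← map_sub, ← map_sub, R1_state h1 hxy]
    simp only [map_finsuppSum]
    refine Finsupp.sum_congr fun l _ => ?_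
    refine Finsupp.sum_congr fun pq _ => ?_
    rw [hVx, hVy, ac_S act k₀ hxy.symm, ac_self, ← A_S, hSyV, hUx, ac_self, ← A_S, ← hUx,
      ← A_S, hSxV, ← Finsupp.smul_single, map_smul, map_smul, map_smul, map_smul]
  rw [e2, e3, ← Finsupp.sum_add]
  apply Finset.sum_eq_zero
  intro l _
  exact neg_add_cancel _

end key

end Pool.Agent.Helper49.AD
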