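import Pool.Agent.Helper49.AD.Words

/-!
MP_ccb3f4_gt, packet AD-WS, part 3: the weight system on the triangular quotient.
-/

set_option autoImplicit false

namespace Pool.Agent.Helper49.AD

open Pool.Agent.Helper88.AD

section final

variable {d : ℕ} {K E : Type} [AddCommGroup E] [Module ℚ E]
  (act : K → Module.End ℚ E) (h : E →ₗ[ℚ] (K →₀ E)) (k₀ : K)

/-- The value of a word. -/
noncomputable def phi (w : List (Pt d)) : E →ₗ[ℚ] E :=
  sg w ∅ • (Finsupp.lapply (fun _ => k₀) ∘ₗ MC act h k₀ w ∅ ∘ₗ Finsupp.lsingle (fun _ => k₀))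

theorem phi_apply (w : List (Pt d)) (v : E) :
    phi act h k₀ w v =
      sg w ∅ • (MC act h k₀ w ∅ (Finsupp.single (fun _ => k₀) v)) (fun _ => k₀) := rfl

theorem Tr_const (s : Equiv.Perm (Fin d)) (v : E) :
    Tr K E s (Finsupp.single (fun _ => k₀) v) = Finsupp.single (fun _ => k₀) v := by
  rw [Tr_single]
  rfl

theorem Tr_eval (s : Equiv.Perm (Fin d)) (t : St d K E) :
    (Tr K E s t) (fun _ => k₀) = t (fun _ => k₀) := by
  have : Finsupp.lapply (fun _ => k₀) ∘ₗ Tr K E s =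
      (Finsupp.lapply (fun _ => k₀) : St d K E →ₗ[ℚ] E) := by
    apply Finsupp.lhom_ext
    intro n v
    rw [LinearMap.comp_apply, Tr_single, Finsupp.lapply_apply, Finsupp.lapply_apply]
    by_cases hn : n = fun _ => k₀
    · subst hn
      rfl
    · rw [Finsupp.single_eq_of_ne, Finsupp.single_eq_of_ne]
      · exact fun h => hn h.symm
      · intro h1
        apply hn
        funext i
        have := congrFun h1 (s i)
        simpa using this.symm
  exact LinearMap.congr_fun this t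

theorem phi_ren (s : Equiv.Perm (Fin d)) (w : List (Pt d)) :
    phi act h k₀ (ren s w) = phi act h k₀ w := by
  ext v
  rw [phi_apply, phi_apply]
  have e1 := sg_ren s w ∅
  have e2 := MC_ren act h k₀ s w ∅ (Finsupp.single (fun _ => k₀) v)
  rw [Finset.image_empty] at e1 e2
  rw [Tr_const] at e2
  rw [e1, e2, Tr_eval]

theorem phi_rev (x : Fin d) (w : List (Pt d)) (hx : x ∈ ns w) :
    phi act h k₀ (rev x w) = - phi act h k₀ w := by
  ext v
  rw [LinearMap.neg_apply, phi_apply, phi_apply, MC_rev, sg_rev, if_pos]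
  · rw [mul_neg, mul_one, neg_smul]
  · exact ⟨hx, by simp⟩

/-- `Φ`. -/
noncomputable def Phi (d : ℕ) (act : K → Module.End ℚ E) (h : E →ₗ[ℚ] (K →₀ E)) (k₀ : K) :
    (Dg d →₀ ℚ) →ₗ[ℚ] (E →ₗ[ℚ] E) :=
  Finsupp.linearCombination ℚ fun w : Dg d => phi act h k₀ w.1

theorem Phi_el {w : List (Pt d)} (hw : IsD w) : Phi d act h k₀ (el w) = phi act h k₀ w := by
  rw [el_of hw, Phi, Finsupp.linearCombination_single, one_smul]

theorem Phi_el_not {w : List (Pt d)} (hw : ¬ IsD w) : Phi d act h k₀ (el w) = 0 := by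
  rw [el_of_not hw, map_zero]

theorem isD_ren (s : Equiv.Perm (Fin d)) (w : List (Pt d)) : IsD (ren s w) ↔ IsD w := by
  have hi : Function.Injective fun p : Pt d => ((s p.1, p.2) : Pt d) := by
    rintro ⟨a, b⟩ ⟨c, e⟩ hh
    simp only [Prod.mk.injEq, EmbeddingLike.apply_eq_iff_eq] at hh
    exact Prod.ext hh.1 hh.2
  unfold IsD ren
  constructor
  · intro H p
    rw [← H (s p.1, p.2)]
    exact (List.count_map_of_injective w _ hi p).symm
  · intro H p
    have := List.count_map_of_injective w _ hi (s.symm p.1, p.2)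
    simp only [Equiv.apply_symm_apply] at this
    rw [this]
    exact H _

theorem isD_rev (x : Fin d) (w : List (Pt d)) : IsD (rev x w) ↔ IsD w := by
  have hi : Function.Injective fun p : Pt d => if p.1 = x then ((p.1, !p.2) : Pt d) else p := by
    have hinv : Function.Involutive
        fun p : Pt d => if p.1 = x then ((p.1, !p.2) : Pt d) else p := by
      intro p
      by_cases hp : p.1 = x
      · simp [hp]
        exact Prod.ext hp.symm rfl
      · simp [hp]
    exact hinv.injective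
  have hinv : ∀ p : Pt d, (if (if p.1 = x then ((p.1, !p.2) : Pt d) else p).1 = x then
      ((if p.1 = x then ((p.1, !p.2) : Pt d) else p).1,
        !(if p.1 = x then ((p.1, !p.2) : Pt d) else p).2)
      else (if p.1 = x then ((p.1, !p.2) : Pt d) else p)) = p := by
    intro p
    by_cases hp : p.1 = x
    · simp [hp]
      exact Prod.ext hp.symm rfl
    · simp [hp]
  unfold IsD rev
  constructor
  · intro H p
    rw [← H (if p.1 = x then ((p.1, !p.2) : Pt d) else p)]
    exact (List.count_map_of_injective w _ hi p).symm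
  · intro H p
    have := List.count_map_of_injective w _ hi (if p.1 = x then ((p.1, !p.2) : Pt d) else p)
    rw [hinv] at this
    rw [this]
    exact H _

theorem Phi_ren (s : Equiv.Perm (Fin d)) (w : List (Pt d)) :
    Phi d act h k₀ (el w - el (ren s w)) = 0 := by
  rw [map_sub]
  by_cases hw : IsD w
  · rw [Phi_el act h k₀ hw, Phi_el act h k₀ ((isD_ren s w).2 hw), phi_ren, sub_self]
  · rw [Phi_el_not act h k₀ hw, Phi_el_not act h k₀ (fun h1 => hw ((isD_ren s w).1 h1)),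
      sub_self]

theorem Phi_rev (x : Fin d) (w : List (Pt d)) :
    Phi d act h k₀ (el w + el (rev x w)) = 0 := by
  rw [map_add]
  by_cases hw : IsD w
  · rw [Phi_el act h k₀ hw, Phi_el act h k₀ ((isD_rev x w).2 hw), phi_rev, add_neg_cancel]
    exact mem_ns.2 ⟨(x, true), ((isD_iff w).1 hw).2 _, rfl⟩
  · rw [Phi_el_not act h k₀ hw, Phi_el_not act h k₀ (fun h1 => hw ((isD_rev x w).1 h1)),
      add_zero]

theorem phi_lr (σ : Equiv.Perm (Fin d)) (v : E) :
    phi act h k₀ (lr (fun _ => true) σ) v = thval act h k₀ σ v := by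
  have hA : ns (List.ofFn fun k : Fin d => ((σ k, !true) : Pt d)) = Finset.univ := by
    ext z
    simp only [Finset.mem_univ, iff_true]
    refine mem_ns.2 ⟨(z, !true), ?_, rfl⟩
    rw [List.mem_ofFn]
    exact ⟨σ.symm z, by simp⟩
  rw [phi_apply, lr, sg_append, MC_append, hA, sg_mem, sg_false, MC_mem, MC_nodup, mul_one,
    one_smul, thval, List.map_ofFn, List.map_ofFn]
  · rfl
  · rw [List.map_ofFn, List.nodup_ofFn]
    intro i j hij
    exact σ.injective hij
  · intro p _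
    simp
  · intro p _
    simp
  · intro p hp
    rw [List.mem_ofFn] at hp
    obtain ⟨k, rfl⟩ := hp
    rfl
  · intro p _
    simp

/-! ### The 6T relation -/

/-- A word with two special names. -/
theorem MC_word (u : Fin 4 → List (Pt d)) (A0 A1 A2 : List (Pt d))
    (h0 : ∀ j, ∀ z ∈ ns (u j), z ∉ ns A0) (h1 : ∀ j, ∀ z ∈ ns (u j), z ∉ ns A1)
    (h2 : ∀ j, ∀ z ∈ ns (u j), z ∉ ns A2) :
    MC act h k₀ (u 0 ++ A0 ++ u 1 ++ A1 ++ u 2 ++ A2 ++ u 3) ∅ =
      MC act h k₀ (u 0) (ns (u 1) ∪ ns (u 2) ∪ ns (u 3)) * MC act h k₀ A0 (ns A1 ∪ ns A2) *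
      MC act h k₀ (u 1) (ns (u 2) ∪ ns (u 3)) * MC act h k₀ A1 (ns A2) *
      MC act h k₀ (u 2) (ns (u 3)) * MC act h k₀ A2 ∅ * MC act h k₀ (u 3) ∅ := by
  rw [MC_append, MC_append, MC_append, MC_append, MC_append, MC_append]
  congr 1
  congr 1
  · congr 1
    · congr 1
      · congr 1
        · congr 1
          · apply MC_congr
            intro p hp
            have a0 := h0 0 _ (mem_ns_of hp)
            have a1 := h1 0 _ (mem_ns_of hp)
            have a2 := h2 0 _ (mem_ns_of hp)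
            simp only [Finset.mem_union, Finset.notMem_empty, a0, a1, a2]
            tauto
          · apply MC_congr
            intro p hp
            have a0 := fun j hj => h0 j _ hj (mem_ns_of hp)
            simp only [Finset.mem_union, Finset.notMem_empty, a0]
            tauto
        · apply MC_congr
          intro p hp
          have a0 := h0 1 _ (mem_ns_of hp)
          have a1 := h1 1 _ (mem_ns_of hp)
          have a2 := h2 1 _ (mem_ns_of hp)
          simp only [Finset.mem_union, Finset.notMem_empty, a0, a1, a2]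
          tauto
      · apply MC_congr
        intro p hp
        have a0 := fun j hj => h1 j _ hj (mem_ns_of hp)
        simp only [Finset.mem_union, Finset.notMem_empty, a0]
        tauto
    · apply MC_congr
      intro p hp
      have a0 := h0 2 _ (mem_ns_of hp)
      have a1 := h1 2 _ (mem_ns_of hp)
      have a2 := h2 2 _ (mem_ns_of hp)
      simp only [Finset.mem_union, Finset.notMem_empty, a0, a1, a2]
      tauto
  · apply MC_congr
    intro p hp
    have a0 := fun j hj => h2 j _ hj (mem_ns_of hp)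
    simp only [Finset.mem_union, Finset.notMem_empty, a0]
    tauto

theorem sg_word (u : Fin 4 → List (Pt d)) (A0 A1 A2 : List (Pt d))
    (h0 : ∀ j, ∀ z ∈ ns (u j), z ∉ ns A0) (h1 : ∀ j, ∀ z ∈ ns (u j), z ∉ ns A1)
    (h2 : ∀ j, ∀ z ∈ ns (u j), z ∉ ns A2) :
    sg (u 0 ++ A0 ++ u 1 ++ A1 ++ u 2 ++ A2 ++ u 3) ∅ =
      (sg (u 0) (ns (u 1) ∪ ns (u 2) ∪ ns (u 3)) * sg (u 1) (ns (u 2) ∪ ns (u 3)) *
        sg (u 2) (ns (u 3)) * sg (u 3) ∅) *
      (sg A0 (ns A1 ∪ ns A2) * sg A1 (ns A2) * sg A2 ∅) := by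
  rw [sg_append, sg_append, sg_append, sg_append, sg_append, sg_append]
  have e0 : sg (u 0) (ns A0 ∪ (ns (u 1) ∪ (ns A1 ∪ (ns (u 2) ∪ (ns A2 ∪ (ns (u 3) ∪ ∅)))))) =
      sg (u 0) (ns (u 1) ∪ ns (u 2) ∪ ns (u 3)) := by
    apply sg_congr
    intro p hp
    have a0 := h0 0 _ (mem_ns_of hp)
    have a1 := h1 0 _ (mem_ns_of hp)
    have a2 := h2 0 _ (mem_ns_of hp)
    simp only [Finset.mem_union, Finset.notMem_empty, a0, a1, a2]
    tauto
  have e1 : sg A0 (ns (u 1) ∪ (ns A1 ∪ (ns (u 2) ∪ (ns A2 ∪ (ns (u 3) ∪ ∅))))) =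
      sg A0 (ns A1 ∪ ns A2) := by
    apply sg_congr
    intro p hp
    have a0 := fun j hj => h0 j _ hj (mem_ns_of hp)
    simp only [Finset.mem_union, Finset.notMem_empty, a0]
    tauto
  have e2 : sg (u 1) (ns A1 ∪ (ns (u 2) ∪ (ns A2 ∪ (ns (u 3) ∪ ∅)))) =
      sg (u 1) (ns (u 2) ∪ ns (u 3)) := by
    apply sg_congr
    intro p hp
    have a0 := h0 1 _ (mem_ns_of hp)
    have a1 := h1 1 _ (mem_ns_of hp)
    have a2 := h2 1 _ (mem_ns_of hp)
    simp only [Finset.mem_union, Finset.notMem_empty, a0, a1, a2]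
    tauto
  have e3 : sg A1 (ns (u 2) ∪ (ns A2 ∪ (ns (u 3) ∪ ∅))) = sg A1 (ns A2) := by
    apply sg_congr
    intro p hp
    have a0 := fun j hj => h1 j _ hj (mem_ns_of hp)
    simp only [Finset.mem_union, Finset.notMem_empty, a0]
    tauto
  have e4 : sg (u 2) (ns A2 ∪ (ns (u 3) ∪ ∅)) = sg (u 2) (ns (u 3)) := by
    apply sg_congr
    intro p hp
    have a0 := h0 2 _ (mem_ns_of hp)
    have a1 := h1 2 _ (mem_ns_of hp)
    have a2 := h2 2 _ (mem_ns_of hp)
    simp only [Finset.mem_union, Finset.notMem_empty, a0, a1, a2]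
    tauto
  have e5 : sg A2 (ns (u 3) ∪ ∅) = sg A2 ∅ := by
    apply sg_congr
    intro p hp
    have a0 := fun j hj => h2 j _ hj (mem_ns_of hp)
    simp only [Finset.mem_union, Finset.notMem_empty, a0]
    tauto
  rw [e0, e1, e2, e3, e4, e5]
  ring

/-- A word with slots. -/
def W (u : Fin 4 → List (Pt d)) (A0 A1 A2 : List (Pt d)) : List (Pt d) :=
  u 0 ++ A0 ++ u 1 ++ A1 ++ u 2 ++ A2 ++ u 3

/-- The four endpoints. -/
def L4 (x y : Fin d) : List (Pt d) := [(x, true), (x, false), (y, true), (y, false)]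

theorem isD_W (u : Fin 4 → List (Pt d)) (A0 A1 A2 : List (Pt d)) (x y : Fin d)
    (hp : ∀ p, A0.count p + A1.count p + A2.count p = (L4 x y).count p) :
    IsD (W u A0 A1 A2) ↔ IsD (u 0 ++ u 1 ++ u 2 ++ u 3 ++ L4 x y) := by
  unfold IsD W
  simp only [List.count_append]
  constructor
  · intro H p
    have h1 := H p
    have h2 := hp p
    omega
  · intro H p
    have h1 := H p
    have h2 := hp p
    omega

theorem isD_base {u : Fin 4 → List (Pt d)} {x y : Fin d}
    (hd : IsD (u 0 ++ u 1 ++ u 2 ++ u 3 ++ L4 x y)) :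
    x ≠ y ∧ (∀ j, x ∉ ns (u j)) ∧ ∀ j, y ∉ ns (u j) := by
  have h1 := ((isD_iff _).1 hd).1
  rw [List.nodup_append] at h1
  obtain ⟨_, h2, h3⟩ := h1
  have key : ∀ z : Fin d, (∀ b, (z, b) ∈ L4 x y) → ∀ j, z ∉ ns (u j) := by
    intro z hz j hj
    obtain ⟨⟨z', b⟩, hp, hp1⟩ := mem_ns.1 hj
    simp only at hp1
    subst hp1
    refine h3 (z', b) ?_ (z', b) (hz b) rfl
    simp only [List.mem_append]
    fin_cases j
    · exact Or.inl (Or.inl (Or.inl hp))
    · exact Or.inl (Or.inl (Or.inr hp))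
    · exact Or.inl (Or.inr hp)
    · exact Or.inr hp
  refine ⟨?_, key x ?_, key y ?_⟩
  · rintro rfl
    simp [L4] at h2
  · intro b
    cases b <;> simp [L4]
  · intro b
    cases b <;> simp [L4]

theorem ren_eq_self (s : Equiv.Perm (Fin d)) (w : List (Pt d)) (hw : ∀ z ∈ ns w, s z = z) :
    ren s w = w := by
  unfold ren
  conv_rhs => rw [← List.map_id w]
  apply List.map_congr_left
  intro p hp
  rw [hw _ (mem_ns_of hp)]
  rfl

theorem phi_swap (u : Fin 4 → List (Pt d)) (A0 A1 A2 : List (Pt d)) {x y : Fin d}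
    (hx : ∀ j, x ∉ ns (u j)) (hy : ∀ j, y ∉ ns (u j)) :
    phi act h k₀ (W u A0 A1 A2) = phi act h k₀ (W u (ren (Equiv.swap x y) A0)
      (ren (Equiv.swap x y) A1) (ren (Equiv.swap x y) A2)) := by
  rw [← phi_ren act h k₀ (Equiv.swap x y) (W u A0 A1 A2)]
  congr 1
  have e : ∀ j, ren (Equiv.swap x y) (u j) = u j := by
    intro j
    apply ren_eq_self
    intro z hz
    apply Equiv.swap_apply_of_ne_of_ne
    · rintro rfl
      exact hx j hz
    · rintro rfl
      exact hy j hz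
  have e2 : ∀ a b : List (Pt d), ren (Equiv.swap x y) (a ++ b) =
      ren (Equiv.swap x y) a ++ ren (Equiv.swap x y) b := by
    intro a b
    exact List.map_append
  unfold W
  simp only [e2, e]

/-- Value of a product of operators. -/
noncomputable def EV (v : E) (M : Module.End ℚ (St d K E)) : E :=
  (M (Finsupp.single (fun _ => k₀) v)) (fun _ => k₀)

/-- The sign of an arrow whose left endpoint has the type `α`. -/
def ε (α : Bool) : ℚ := if α then 1 else -1

/-- The common sign. -/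
def cs (u : Fin 4 → List (Pt d)) : ℚ :=
  sg (u 0) (ns (u 1) ∪ ns (u 2) ∪ ns (u 3)) * sg (u 1) (ns (u 2) ∪ ns (u 3)) *
    sg (u 2) (ns (u 3)) * sg (u 3) ∅

theorem phi_W (u : Fin 4 → List (Pt d)) (A0 A1 A2 : List (Pt d)) {x y : Fin d}
    (hx : ∀ j, x ∉ ns (u j)) (hy : ∀ j, y ∉ ns (u j))
    (h0 : ns A0 ⊆ {x, y}) (h1 : ns A1 ⊆ {x, y}) (h2 : ns A2 ⊆ {x, y}) (v : E) :
    phi act h k₀ (W u A0 A1 A2) v =
      (cs u * (sg A0 (ns A1 ∪ ns A2) * sg A1 (ns A2) * sg A2 ∅)) •
      EV k₀ v (MC act h k₀ (u 0) (ns (u 1) ∪ ns (u 2) ∪ ns (u 3)) *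
        MC act h k₀ A0 (ns A1 ∪ ns A2) *
        MC act h k₀ (u 1) (ns (u 2) ∪ ns (u 3)) * MC act h k₀ A1 (ns A2) *
        MC act h k₀ (u 2) (ns (u 3)) * MC act h k₀ A2 ∅ * MC act h k₀ (u 3) ∅) := by
  have key : ∀ A : List (Pt d), ns A ⊆ {x, y} → ∀ j, ∀ z ∈ ns (u j), z ∉ ns A := by
    intro A hA j z hz hzA
    have := hA hzA
    rw [Finset.mem_insert, Finset.mem_singleton] at this
    rcases this with rfl | rfl
    · exact hx j hz
    · exact hy j hz
  rw [phi_apply]
  unfold W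
  rw [MC_word act h k₀ u A0 A1 A2 (key A0 h0) (key A1 h1) (key A2 h2),
    sg_word u A0 A1 A2 (key A0 h0) (key A1 h1) (key A2 h2)]
  rfl

/-- Operator word. -/
noncomputable def P1 (x y : Fin d) (U0 U1 U2 U3 : Module.End ℚ (St d K E)) :
    Module.End ℚ (St d K E) :=
  U0 * ac act k₀ x * ac act k₀ y * U1 * hd h x * U2 * hd h y * U3

theorem P1_lem (u : Fin 4 → List (Pt d)) {x y : Fin d} (hxy : x ≠ y)
    (hx : ∀ j, x ∉ ns (u j)) (hy : ∀ j, y ∉ ns (u j)) (α β : Bool) (v : E) :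
    phi act h k₀ (W u [(x, α), (y, β)] [(x, !α)] [(y, !β)]) v =
      (cs u * (ε α * ε β)) • EV k₀ v (P1 act h k₀ x y
        (MC act h k₀ (u 0) (ns (u 1) ∪ ns (u 2) ∪ ns (u 3)))
        (MC act h k₀ (u 1) (ns (u 2) ∪ ns (u 3))) (MC act h k₀ (u 2) (ns (u 3)))
        (MC act h k₀ (u 3) ∅)) := by
  rw [phi_W act h k₀ u [(x, α), (y, β)] [(x, !α)] [(y, !β)] hx hy
    (by intro z hz; simp only [ns_cons, ns_nil, Finset.mem_insert, Finset.notMem_empty,
          or_false, Finset.mem_singleton] at hz ⊢; tauto)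
    (by intro z hz; simp only [ns_cons, ns_nil, Finset.mem_insert, Finset.notMem_empty,
          or_false, Finset.mem_singleton] at hz ⊢; tauto)
    (by intro z hz; simp only [ns_cons, ns_nil, Finset.mem_insert, Finset.notMem_empty,
          or_false, Finset.mem_singleton] at hz ⊢; tauto)]
  congr 1
  · congr 1
    cases α <;> cases β <;> simp [sg, ε, hxy, hxy.symm]
  · congr 1
    unfold P1
    simp [MC, hxy, hxy.symm, mul_assoc]

theorem P1_lem' (u : Fin 4 → List (Pt d)) {x y : Fin d} (hxy : x ≠ y)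
    (hx : ∀ j, x ∉ ns (u j)) (hy : ∀ j, y ∉ ns (u j)) (α β : Bool) (v : E) :
    phi act h k₀ (W u [(y, α), (x, β)] [(y, !α)] [(x, !β)]) v =
      (cs u * (ε α * ε β)) • EV k₀ v (P1 act h k₀ x y
        (MC act h k₀ (u 0) (ns (u 1) ∪ ns (u 2) ∪ ns (u 3)))
        (MC act h k₀ (u 1) (ns (u 2) ∪ ns (u 3))) (MC act h k₀ (u 2) (ns (u 3)))
        (MC act h k₀ (u 3) ∅)) := by
  rw [phi_swap act h k₀ u [(y, α), (x, β)] [(y, !α)] [(x, !β)] hx hy,
    ← P1_lem act h k₀ u hxy hx hy α β v]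
  simp [ren]

/-- Operator word. -/
noncomputable def Q1 (x y : Fin d) (U0 U1 U2 U3 : Module.End ℚ (St d K E)) :
    Module.End ℚ (St d K E) :=
  U0 * ac act k₀ y * ac act k₀ x * U1 * hd h x * U2 * hd h y * U3

theorem Q1_lem (u : Fin 4 → List (Pt d)) {x y : Fin d} (hxy : x ≠ y)
    (hx : ∀ j, x ∉ ns (u j)) (hy : ∀ j, y ∉ ns (u j)) (α β : Bool) (v : E) :
    phi act h k₀ (W u [(y, β), (x, α)] [(x, !α)] [(y, !β)]) v =
      (cs u * (ε α * ε β)) • EV k₀ v (Q1 act h k₀ x y
        (MC act h k₀ (u 0) (ns (u 1) ∪ ns (u 2) ∪ ns (u 3)))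
        (MC act h k₀ (u 1) (ns (u 2) ∪ ns (u 3))) (MC act h k₀ (u 2) (ns (u 3)))
        (MC act h k₀ (u 3) ∅)) := by
  rw [phi_W act h k₀ u [(y, β), (x, α)] [(x, !α)] [(y, !β)] hx hy
    (by intro z hz; simp only [ns_cons, ns_nil, Finset.mem_insert, Finset.notMem_empty,
          or_false, Finset.mem_singleton] at hz ⊢; tauto)
    (by intro z hz; simp only [ns_cons, ns_nil, Finset.mem_insert, Finset.notMem_empty,
          or_false, Finset.mem_singleton] at hz ⊢; tauto)
    (by intro z hz; simp only [ns_cons, ns_nil, Finset.mem_insert, Finset.notMem_empty,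
          or_false, Finset.mem_singleton] at hz ⊢; tauto)]
  congr 1
  · congr 1
    cases α <;> cases β <;> simp [sg, ε, hxy, hxy.symm]
  · congr 1
    unfold Q1
    simp [MC, hxy, hxy.symm, mul_assoc]

theorem Q1_lem' (u : Fin 4 → List (Pt d)) {x y : Fin d} (hxy : x ≠ y)
    (hx : ∀ j, x ∉ ns (u j)) (hy : ∀ j, y ∉ ns (u j)) (α β : Bool) (v : E) :
    phi act h k₀ (W u [(x, β), (y, α)] [(y, !α)] [(x, !β)]) v =
      (cs u * (ε α * ε β)) • EV k₀ v (Q1 act h k₀ x y
        (MC act h k₀ (u 0) (ns (u 1) ∪ ns (u 2) ∪ ns (u 3)))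
        (MC act h k₀ (u 1) (ns (u 2) ∪ ns (u 3))) (MC act h k₀ (u 2) (ns (u 3)))
        (MC act h k₀ (u 3) ∅)) := by
  rw [phi_swap act h k₀ u [(x, β), (y, α)] [(y, !α)] [(x, !β)] hx hy,
    ← Q1_lem act h k₀ u hxy hx hy α β v]
  simp [ren]

/-- Operator word. -/
noncomputable def P2 (x y : Fin d) (U0 U1 U2 U3 : Module.End ℚ (St d K E)) :
    Module.End ℚ (St d K E) :=
  U0 * ac act k₀ x * U1 * hd h x * ac act k₀ y * U2 * hd h y * U3

theorem P2_lem (u : Fin 4 → List (Pt d)) {x y : Fin d} (hxy : x ≠ y)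
    (hx : ∀ j, x ∉ ns (u j)) (hy : ∀ j, y ∉ ns (u j)) (α β : Bool) (v : E) :
    phi act h k₀ (W u [(x, α)] [(x, !α), (y, β)] [(y, !β)]) v =
      (cs u * (ε α * ε β)) • EV k₀ v (P2 act h k₀ x y
        (MC act h k₀ (u 0) (ns (u 1) ∪ ns (u 2) ∪ ns (u 3)))
        (MC act h k₀ (u 1) (ns (u 2) ∪ ns (u 3))) (MC act h k₀ (u 2) (ns (u 3)))
        (MC act h k₀ (u 3) ∅)) := by
  rw [phi_W act h k₀ u [(x, α)] [(x, !α), (y, β)] [(y, !β)] hx hy
    (by intro z hz; simp only [ns_cons, ns_nil, Finset.mem_insert, Finset.notMem_empty,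
          or_false, Finset.mem_singleton] at hz ⊢; tauto)
    (by intro z hz; simp only [ns_cons, ns_nil, Finset.mem_insert, Finset.notMem_empty,
          or_false, Finset.mem_singleton] at hz ⊢; tauto)
    (by intro z hz; simp only [ns_cons, ns_nil, Finset.mem_insert, Finset.notMem_empty,
          or_false, Finset.mem_singleton] at hz ⊢; tauto)]
  congr 1
  · congr 1
    cases α <;> cases β <;> simp [sg, ε, hxy, hxy.symm]
  · congr 1
    unfold P2
    simp [MC, hxy, hxy.symm, mul_assoc]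

theorem P2_lem' (u : Fin 4 → List (Pt d)) {x y : Fin d} (hxy : x ≠ y)
    (hx : ∀ j, x ∉ ns (u j)) (hy : ∀ j, y ∉ ns (u j)) (α β : Bool) (v : E) :
    phi act h k₀ (W u [(y, α)] [(y, !α), (x, β)] [(x, !β)]) v =
      (cs u * (ε α * ε β)) • EV k₀ v (P2 act h k₀ x y
        (MC act h k₀ (u 0) (ns (u 1) ∪ ns (u 2) ∪ ns (u 3)))
        (MC act h k₀ (u 1) (ns (u 2) ∪ ns (u 3))) (MC act h k₀ (u 2) (ns (u 3)))
        (MC act h k₀ (u 3) ∅)) := by
  rw [phi_swap act h k₀ u [(y, α)] [(y, !α), (x, β)] [(x, !β)] hx hy,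
    ← P2_lem act h k₀ u hxy hx hy α β v]
  simp [ren]

/-- Operator word. -/
noncomputable def Q2 (x y : Fin d) (U0 U1 U2 U3 : Module.End ℚ (St d K E)) :
    Module.End ℚ (St d K E) :=
  U0 * ac act k₀ x * U1 * ac act k₀ y * hd h x * U2 * hd h y * U3

theorem Q2_lem (u : Fin 4 → List (Pt d)) {x y : Fin d} (hxy : x ≠ y)
    (hx : ∀ j, x ∉ ns (u j)) (hy : ∀ j, y ∉ ns (u j)) (α β : Bool) (v : E) :
    phi act h k₀ (W u [(x, α)] [(y, β), (x, !α)] [(y, !β)]) v =
      (cs u * (ε α * ε β)) • EV k₀ v (Q2 act h k₀ x y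
        (MC act h k₀ (u 0) (ns (u 1) ∪ ns (u 2) ∪ ns (u 3)))
        (MC act h k₀ (u 1) (ns (u 2) ∪ ns (u 3))) (MC act h k₀ (u 2) (ns (u 3)))
        (MC act h k₀ (u 3) ∅)) := by
  rw [phi_W act h k₀ u [(x, α)] [(y, β), (x, !α)] [(y, !β)] hx hy
    (by intro z hz; simp only [ns_cons, ns_nil, Finset.mem_insert, Finset.notMem_empty,
          or_false, Finset.mem_singleton] at hz ⊢; tauto)
    (by intro z hz; simp only [ns_cons, ns_nil, Finset.mem_insert, Finset.notMem_empty,
          or_false, Finset.mem_singleton] at hz ⊢; tauto)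
    (by intro z hz; simp only [ns_cons, ns_nil, Finset.mem_insert, Finset.notMem_empty,
          or_false, Finset.mem_singleton] at hz ⊢; tauto)]
  congr 1
  · congr 1
    cases α <;> cases β <;> simp [sg, ε, hxy, hxy.symm]
  · congr 1
    unfold Q2
    simp [MC, hxy, hxy.symm, mul_assoc]

theorem Q2_lem' (u : Fin 4 → List (Pt d)) {x y : Fin d} (hxy : x ≠ y)
    (hx : ∀ j, x ∉ ns (u j)) (hy : ∀ j, y ∉ ns (u j)) (α β : Bool) (v : E) :
    phi act h k₀ (W u [(y, α)] [(x, β), (y, !α)] [(x, !β)]) v =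
      (cs u * (ε α * ε β)) • EV k₀ v (Q2 act h k₀ x y
        (MC act h k₀ (u 0) (ns (u 1) ∪ ns (u 2) ∪ ns (u 3)))
        (MC act h k₀ (u 1) (ns (u 2) ∪ ns (u 3))) (MC act h k₀ (u 2) (ns (u 3)))
        (MC act h k₀ (u 3) ∅)) := by
  rw [phi_swap act h k₀ u [(y, α)] [(x, β), (y, !α)] [(x, !β)] hx hy,
    ← Q2_lem act h k₀ u hxy hx hy α β v]
  simp [ren]

/-- Operator word. -/
noncomputable def P3 (x y : Fin d) (U0 U1 U2 U3 : Module.End ℚ (St d K E)) :
    Module.End ℚ (St d K E) :=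
  U0 * ac act k₀ x * U1 * ac act k₀ y * U2 * hd h x * hd h y * U3

theorem P3_lem (u : Fin 4 → List (Pt d)) {x y : Fin d} (hxy : x ≠ y)
    (hx : ∀ j, x ∉ ns (u j)) (hy : ∀ j, y ∉ ns (u j)) (α β : Bool) (v : E) :
    phi act h k₀ (W u [(x, α)] [(y, β)] [(x, !α), (y, !β)]) v =
      (cs u * (ε α * ε β)) • EV k₀ v (P3 act h k₀ x y
        (MC act h k₀ (u 0) (ns (u 1) ∪ ns (u 2) ∪ ns (u 3)))
        (MC act h k₀ (u 1) (ns (u 2) ∪ ns (u 3))) (MC act h k₀ (u 2) (ns (u 3)))
        (MC act h k₀ (u 3) ∅)) := by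
  rw [phi_W act h k₀ u [(x, α)] [(y, β)] [(x, !α), (y, !β)] hx hy
    (by intro z hz; simp only [ns_cons, ns_nil, Finset.mem_insert, Finset.notMem_empty,
          or_false, Finset.mem_singleton] at hz ⊢; tauto)
    (by intro z hz; simp only [ns_cons, ns_nil, Finset.mem_insert, Finset.notMem_empty,
          or_false, Finset.mem_singleton] at hz ⊢; tauto)
    (by intro z hz; simp only [ns_cons, ns_nil, Finset.mem_insert, Finset.notMem_empty,
          or_false, Finset.mem_singleton] at hz ⊢; tauto)]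
  congr 1
  · congr 1
    cases α <;> cases β <;> simp [sg, ε, hxy, hxy.symm]
  · congr 1
    unfold P3
    simp [MC, hxy, hxy.symm, mul_assoc]

theorem P3_lem' (u : Fin 4 → List (Pt d)) {x y : Fin d} (hxy : x ≠ y)
    (hx : ∀ j, x ∉ ns (u j)) (hy : ∀ j, y ∉ ns (u j)) (α β : Bool) (v : E) :
    phi act h k₀ (W u [(y, α)] [(x, β)] [(y, !α), (x, !β)]) v =
      (cs u * (ε α * ε β)) • EV k₀ v (P3 act h k₀ x y
        (MC act h k₀ (u 0) (ns (u 1) ∪ ns (u 2) ∪ ns (u 3)))
        (MC act h k₀ (u 1) (ns (u 2) ∪ ns (u 3))) (MC act h k₀ (u 2) (ns (u 3)))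
        (MC act h k₀ (u 3) ∅)) := by
  rw [phi_swap act h k₀ u [(y, α)] [(x, β)] [(y, !α), (x, !β)] hx hy,
    ← P3_lem act h k₀ u hxy hx hy α β v]
  simp [ren]

/-- Operator word. -/
noncomputable def Q3 (x y : Fin d) (U0 U1 U2 U3 : Module.End ℚ (St d K E)) :
    Module.End ℚ (St d K E) :=
  U0 * ac act k₀ x * U1 * ac act k₀ y * U2 * hd h y * hd h x * U3

theorem Q3_lem (u : Fin 4 → List (Pt d)) {x y : Fin d} (hxy : x ≠ y)
    (hx : ∀ j, x ∉ ns (u j)) (hy : ∀ j, y ∉ ns (u j)) (α β : Bool) (v : E) :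
    phi act h k₀ (W u [(x, α)] [(y, β)] [(y, !β), (x, !α)]) v =
      (cs u * (ε α * ε β)) • EV k₀ v (Q3 act h k₀ x y
        (MC act h k₀ (u 0) (ns (u 1) ∪ ns (u 2) ∪ ns (u 3)))
        (MC act h k₀ (u 1) (ns (u 2) ∪ ns (u 3))) (MC act h k₀ (u 2) (ns (u 3)))
        (MC act h k₀ (u 3) ∅)) := by
  rw [phi_W act h k₀ u [(x, α)] [(y, β)] [(y, !β), (x, !α)] hx hy
    (by intro z hz; simp only [ns_cons, ns_nil, Finset.mem_insert, Finset.notMem_empty,
          or_false, Finset.mem_singleton] at hz ⊢; tauto)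
    (by intro z hz; simp only [ns_cons, ns_nil, Finset.mem_insert, Finset.notMem_empty,
          or_false, Finset.mem_singleton] at hz ⊢; tauto)
    (by intro z hz; simp only [ns_cons, ns_nil, Finset.mem_insert, Finset.notMem_empty,
          or_false, Finset.mem_singleton] at hz ⊢; tauto)]
  congr 1
  · congr 1
    cases α <;> cases β <;> simp [sg, ε, hxy, hxy.symm]
  · congr 1
    unfold Q3
    simp [MC, hxy, hxy.symm, mul_assoc]

theorem Q3_lem' (u : Fin 4 → List (Pt d)) {x y : Fin d} (hxy : x ≠ y)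
    (hx : ∀ j, x ∉ ns (u j)) (hy : ∀ j, y ∉ ns (u j)) (α β : Bool) (v : E) :
    phi act h k₀ (W u [(y, α)] [(x, β)] [(x, !β), (y, !α)]) v =
      (cs u * (ε α * ε β)) • EV k₀ v (Q3 act h k₀ x y
        (MC act h k₀ (u 0) (ns (u 1) ∪ ns (u 2) ∪ ns (u 3)))
        (MC act h k₀ (u 1) (ns (u 2) ∪ ns (u 3))) (MC act h k₀ (u 2) (ns (u 3)))
        (MC act h k₀ (u 3) ∅)) := by
  rw [phi_swap act h k₀ u [(y, α)] [(x, β)] [(x, !β), (y, !α)] hx hy,
    ← Q3_lem act h k₀ u hxy hx hy α β v]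
  simp [ren]

theorem key_EV {dl : K → (K × K →₀ ℚ)} (h1 : R1 h dl) (h2 : R2 act h dl) {x y : Fin d}
    (hxy : x ≠ y) (U0 : Module.End ℚ (St d K E)) {U1 U2 U3 : Module.End ℚ (St d K E)}
    (h1x : Cm U1 x) (h1y : Cm U1 y) (h2x : Cm U2 x) (h2y : Cm U2 y) (h3x : Cm U3 x)
    (h3y : Cm U3 y) (v : E) :
    (EV k₀ v (P1 act h k₀ x y U0 U1 U2 U3) - EV k₀ v (Q1 act h k₀ x y U0 U1 U2 U3)) +
      (EV k₀ v (P2 act h k₀ x y U0 U1 U2 U3) - EV k₀ v (Q2 act h k₀ x y U0 U1 U2 U3)) +
      (EV k₀ v (P3 act h k₀ x y U0 U1 U2 U3) - EV k₀ v (Q3 act h k₀ x y U0 U1 U2 U3)) = 0 := by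
  have hc : ∀ z : Fin d, (S z k₀ (Finsupp.single (fun _ => k₀) v) : St d K E) =
      Finsupp.single (fun _ => k₀) v := by
    intro z
    rw [S_single]
    congr 1
    exact Function.update_eq_self z (fun _ => k₀)
  have hk := key (k₀ := k₀) h1 h2 hxy h1x h1y h2x h2y (U3 (Finsupp.single (fun _ => k₀) v))
    (by rw [← h3x, hc]) (by rw [← h3y, hc])
  have hk2 := congrArg (fun t : St d K E => (U0 t) (fun _ => k₀)) hk
  simp only [map_add, map_sub, map_zero, Finsupp.add_apply, Finsupp.sub_apply,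
    Finsupp.zero_apply] at hk2
  exact hk2

theorem six_0 {dl : K → (K × K →₀ ℚ)} (h1 : R1 h dl) (h2 : R2 act h dl)
    (u : Fin 4 → List (Pt d)) (τ : Equiv.Perm (Fin 3)) (x y : Fin d)
    (t0 : τ 0 = 0) (t1 : τ 1 = 1) (t2 : τ 2 = 2) :
    Phi d act h k₀ (sixT u τ x y) = 0 := by
  have e1 : pr u τ x y 0 1 0 2 = W u [(x, true), (y, true)] [(x, false)] [(y, false)] := by
    simp [pr, ep, W, t0, t1, t2]
  have e2 : pr u τ x y 0 2 0 1 = W u [(x, true), (y, true)] [(y, false)] [(x, false)] := by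
    simp [pr, ep, W, t0, t1, t2]
  have e3 : pr u τ x y 0 1 1 2 = W u [(x, true)] [(x, false), (y, true)] [(y, false)] := by
    simp [pr, ep, W, t0, t1, t2]
  have e4 : pr u τ x y 1 2 0 1 = W u [(y, true)] [(x, true), (y, false)] [(x, false)] := by
    simp [pr, ep, W, t0, t1, t2]
  have e5 : pr u τ x y 0 2 1 2 = W u [(x, true)] [(y, true)] [(x, false), (y, false)] := by
    simp [pr, ep, W, t0, t1, t2]
  have e6 : pr u τ x y 1 2 0 2 = W u [(y, true)] [(x, true)] [(x, false), (y, false)] := by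
    simp [pr, ep, W, t0, t1, t2]
  have i1 := isD_W u [(x, true), (y, true)] [(x, false)] [(y, false)] x y (by
    intro p
    simp only [L4, List.count_cons, List.count_nil]
    ring)
  have i2 := isD_W u [(x, true), (y, true)] [(y, false)] [(x, false)] x y (by
    intro p
    simp only [L4, List.count_cons, List.count_nil]
    ring)
  have i3 := isD_W u [(x, true)] [(x, false), (y, true)] [(y, false)] x y (by
    intro p
    simp only [L4, List.count_cons, List.count_nil]
    ring)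
  have i4 := isD_W u [(y, true)] [(x, true), (y, false)] [(x, false)] x y (by
    intro p
    simp only [L4, List.count_cons, List.count_nil]
    ring)
  have i5 := isD_W u [(x, true)] [(y, true)] [(x, false), (y, false)] x y (by
    intro p
    simp only [L4, List.count_cons, List.count_nil]
    ring)
  have i6 := isD_W u [(y, true)] [(x, true)] [(x, false), (y, false)] x y (by
    intro p
    simp only [L4, List.count_cons, List.count_nil]
    ring)
  rw [sixT, e1, e2, e3, e4, e5, e6]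
  by_cases hD : IsD (u 0 ++ u 1 ++ u 2 ++ u 3 ++ L4 x y)
  · obtain ⟨hxy, hx, hy⟩ := isD_base hD
    ext v
    rw [map_add, map_add, map_sub, map_sub, map_sub, Phi_el act h k₀ (i1.2 hD),
      Phi_el act h k₀ (i2.2 hD), Phi_el act h k₀ (i3.2 hD), Phi_el act h k₀ (i4.2 hD),
      Phi_el act h k₀ (i5.2 hD), Phi_el act h k₀ (i6.2 hD)]
    have K0 := key_EV act h k₀ h1 h2 hxy
      (MC act h k₀ (u 0) (ns (u 1) ∪ ns (u 2) ∪ ns (u 3)))
      (Cm_MC act h k₀ (u 1) (ns (u 2) ∪ ns (u 3)) (hx 1))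
      (Cm_MC act h k₀ (u 1) (ns (u 2) ∪ ns (u 3)) (hy 1))
      (Cm_MC act h k₀ (u 2) (ns (u 3)) (hx 2)) (Cm_MC act h k₀ (u 2) (ns (u 3)) (hy 2))
      (Cm_MC act h k₀ (u 3) ∅ (hx 3)) (Cm_MC act h k₀ (u 3) ∅ (hy 3)) v
    have f1 := P1_lem act h k₀ u hxy hx hy true true v
    have f2 := Q1_lem' act h k₀ u hxy hx hy true true v
    have f3 := P2_lem act h k₀ u hxy hx hy true true v
    have f4 := Q2_lem' act h k₀ u hxy hx hy true true v
    have f5 := P3_lem act h k₀ u hxy hx hy true true v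
    have f6 := Q3_lem' act h k₀ u hxy hx hy true true v
    simp only [Bool.not_true, Bool.not_false] at f1 f2 f3 f4 f5 f6
    simp only [LinearMap.add_apply, LinearMap.sub_apply, LinearMap.zero_apply]
    rw [f1, f2, f3, f4, f5, f6]
    simp only [ε, if_true, Bool.false_eq_true, if_false]
    linear_combination (norm := module) (cs u) • K0
  · rw [map_add, map_add, map_sub, map_sub, map_sub,
      Phi_el_not act h k₀ (fun h1 => hD (i1.1 h1)), Phi_el_not act h k₀ (fun h1 => hD (i2.1 h1)),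
      Phi_el_not act h k₀ (fun h1 => hD (i3.1 h1)), Phi_el_not act h k₀ (fun h1 => hD (i4.1 h1)),
      Phi_el_not act h k₀ (fun h1 => hD (i5.1 h1)), Phi_el_not act h k₀ (fun h1 => hD (i6.1 h1))]
    simp

theorem six_1 {dl : K → (K × K →₀ ℚ)} (h1 : R1 h dl) (h2 : R2 act h dl)
    (u : Fin 4 → List (Pt d)) (τ : Equiv.Perm (Fin 3)) (x y : Fin d)
    (t0 : τ 0 = 0) (t1 : τ 1 = 2) (t2 : τ 2 = 1) :
    Phi d act h k₀ (sixT u τ x y) = 0 := by
  have e1 : pr u τ x y 0 1 0 2 = W u [(x, true), (y, true)] [(y, false)] [(x, false)] := by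
    simp [pr, ep, W, t0, t1, t2]
  have e2 : pr u τ x y 0 2 0 1 = W u [(x, true), (y, true)] [(x, false)] [(y, false)] := by
    simp [pr, ep, W, t0, t1, t2]
  have e3 : pr u τ x y 0 1 1 2 = W u [(x, true)] [(y, false)] [(x, false), (y, true)] := by
    simp [pr, ep, W, t0, t1, t2]
  have e4 : pr u τ x y 1 2 0 1 = W u [(y, true)] [(x, false)] [(x, true), (y, false)] := by
    simp [pr, ep, W, t0, t1, t2]
  have e5 : pr u τ x y 0 2 1 2 = W u [(x, true)] [(x, false), (y, false)] [(y, true)] := by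
    simp [pr, ep, W, t0, t1, t2]
  have e6 : pr u τ x y 1 2 0 2 = W u [(y, true)] [(x, false), (y, false)] [(x, true)] := by
    simp [pr, ep, W, t0, t1, t2]
  have i1 := isD_W u [(x, true), (y, true)] [(y, false)] [(x, false)] x y (by
    intro p
    simp only [L4, List.count_cons, List.count_nil]
    ring)
  have i2 := isD_W u [(x, true), (y, true)] [(x, false)] [(y, false)] x y (by
    intro p
    simp only [L4, List.count_cons, List.count_nil]
    ring)
  have i3 := isD_W u [(x, true)] [(y, false)] [(x, false), (y, true)] x y (by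
    intro p
    simp only [L4, List.count_cons, List.count_nil]
    ring)
  have i4 := isD_W u [(y, true)] [(x, false)] [(x, true), (y, false)] x y (by
    intro p
    simp only [L4, List.count_cons, List.count_nil]
    ring)
  have i5 := isD_W u [(x, true)] [(x, false), (y, false)] [(y, true)] x y (by
    intro p
    simp only [L4, List.count_cons, List.count_nil]
    ring)
  have i6 := isD_W u [(y, true)] [(x, false), (y, false)] [(x, true)] x y (by
    intro p
    simp only [L4, List.count_cons, List.count_nil]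
    ring)
  rw [sixT, e1, e2, e3, e4, e5, e6]
  by_cases hD : IsD (u 0 ++ u 1 ++ u 2 ++ u 3 ++ L4 x y)
  · obtain ⟨hxy, hx, hy⟩ := isD_base hD
    ext v
    rw [map_add, map_add, map_sub, map_sub, map_sub, Phi_el act h k₀ (i1.2 hD),
      Phi_el act h k₀ (i2.2 hD), Phi_el act h k₀ (i3.2 hD), Phi_el act h k₀ (i4.2 hD),
      Phi_el act h k₀ (i5.2 hD), Phi_el act h k₀ (i6.2 hD)]
    have K0 := key_EV act h k₀ h1 h2 hxy
      (MC act h k₀ (u 0) (ns (u 1) ∪ ns (u 2) ∪ ns (u 3)))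
      (Cm_MC act h k₀ (u 1) (ns (u 2) ∪ ns (u 3)) (hx 1))
      (Cm_MC act h k₀ (u 1) (ns (u 2) ∪ ns (u 3)) (hy 1))
      (Cm_MC act h k₀ (u 2) (ns (u 3)) (hx 2)) (Cm_MC act h k₀ (u 2) (ns (u 3)) (hy 2))
      (Cm_MC act h k₀ (u 3) ∅ (hx 3)) (Cm_MC act h k₀ (u 3) ∅ (hy 3)) v
    have f1 := Q1_lem' act h k₀ u hxy hx hy true true v
    have f2 := P1_lem act h k₀ u hxy hx hy true true v
    have f3 := P3_lem act h k₀ u hxy hx hy true false v
    have f4 := Q3_lem' act h k₀ u hxy hx hy true false v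
    have f5 := P2_lem act h k₀ u hxy hx hy true false v
    have f6 := Q2_lem' act h k₀ u hxy hx hy true false v
    simp only [Bool.not_true, Bool.not_false] at f1 f2 f3 f4 f5 f6
    simp only [LinearMap.add_apply, LinearMap.sub_apply, LinearMap.zero_apply]
    rw [f1, f2, f3, f4, f5, f6]
    simp only [ε, if_true, Bool.false_eq_true, if_false]
    linear_combination (norm := module) (-cs u) • K0
  · rw [map_add, map_add, map_sub, map_sub, map_sub,
      Phi_el_not act h k₀ (fun h1 => hD (i1.1 h1)), Phi_el_not act h k₀ (fun h1 => hD (i2.1 h1)),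
      Phi_el_not act h k₀ (fun h1 => hD (i3.1 h1)), Phi_el_not act h k₀ (fun h1 => hD (i4.1 h1)),
      Phi_el_not act h k₀ (fun h1 => hD (i5.1 h1)), Phi_el_not act h k₀ (fun h1 => hD (i6.1 h1))]
    simp

theorem six_2 {dl : K → (K × K →₀ ℚ)} (h1 : R1 h dl) (h2 : R2 act h dl)
    (u : Fin 4 → List (Pt d)) (τ : Equiv.Perm (Fin 3)) (x y : Fin d)
    (t0 : τ 0 = 1) (t1 : τ 1 = 0) (t2 : τ 2 = 2) :
    Phi d act h k₀ (sixT u τ x y) = 0 := by
  have e1 : pr u τ x y 0 1 0 2 = W u [(x, false)] [(x, true), (y, true)] [(y, false)] := by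
    simp [pr, ep, W, t0, t1, t2]
  have e2 : pr u τ x y 0 2 0 1 = W u [(y, false)] [(x, true), (y, true)] [(x, false)] := by
    simp [pr, ep, W, t0, t1, t2]
  have e3 : pr u τ x y 0 1 1 2 = W u [(x, false), (y, true)] [(x, true)] [(y, false)] := by
    simp [pr, ep, W, t0, t1, t2]
  have e4 : pr u τ x y 1 2 0 1 = W u [(x, true), (y, false)] [(y, true)] [(x, false)] := by
    simp [pr, ep, W, t0, t1, t2]
  have e5 : pr u τ x y 0 2 1 2 = W u [(y, true)] [(x, true)] [(x, false), (y, false)] := by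
    simp [pr, ep, W, t0, t1, t2]
  have e6 : pr u τ x y 1 2 0 2 = W u [(x, true)] [(y, true)] [(x, false), (y, false)] := by
    simp [pr, ep, W, t0, t1, t2]
  have i1 := isD_W u [(x, false)] [(x, true), (y, true)] [(y, false)] x y (by
    intro p
    simp only [L4, List.count_cons, List.count_nil]
    ring)
  have i2 := isD_W u [(y, false)] [(x, true), (y, true)] [(x, false)] x y (by
    intro p
    simp only [L4, List.count_cons, List.count_nil]
    ring)
  have i3 := isD_W u [(x, false), (y, true)] [(x, true)] [(y, false)] x y (by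
    intro p
    simp only [L4, List.count_cons, List.count_nil]
    ring)
  have i4 := isD_W u [(x, true), (y, false)] [(y, true)] [(x, false)] x y (by
    intro p
    simp only [L4, List.count_cons, List.count_nil]
    ring)
  have i5 := isD_W u [(y, true)] [(x, true)] [(x, false), (y, false)] x y (by
    intro p
    simp only [L4, List.count_cons, List.count_nil]
    ring)
  have i6 := isD_W u [(x, true)] [(y, true)] [(x, false), (y, false)] x y (by
    intro p
    simp only [L4, List.count_cons, List.count_nil]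
    ring)
  rw [sixT, e1, e2, e3, e4, e5, e6]
  by_cases hD : IsD (u 0 ++ u 1 ++ u 2 ++ u 3 ++ L4 x y)
  · obtain ⟨hxy, hx, hy⟩ := isD_base hD
    ext v
    rw [map_add, map_add, map_sub, map_sub, map_sub, Phi_el act h k₀ (i1.2 hD),
      Phi_el act h k₀ (i2.2 hD), Phi_el act h k₀ (i3.2 hD), Phi_el act h k₀ (i4.2 hD),
      Phi_el act h k₀ (i5.2 hD), Phi_el act h k₀ (i6.2 hD)]
    have K0 := key_EV act h k₀ h1 h2 hxy
      (MC act h k₀ (u 0) (ns (u 1) ∪ ns (u 2) ∪ ns (u 3)))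
      (Cm_MC act h k₀ (u 1) (ns (u 2) ∪ ns (u 3)) (hx 1))
      (Cm_MC act h k₀ (u 1) (ns (u 2) ∪ ns (u 3)) (hy 1))
      (Cm_MC act h k₀ (u 2) (ns (u 3)) (hx 2)) (Cm_MC act h k₀ (u 2) (ns (u 3)) (hy 2))
      (Cm_MC act h k₀ (u 3) ∅ (hx 3)) (Cm_MC act h k₀ (u 3) ∅ (hy 3)) v
    have f1 := P2_lem act h k₀ u hxy hx hy false true v
    have f2 := Q2_lem' act h k₀ u hxy hx hy false true v
    have f3 := P1_lem act h k₀ u hxy hx hy false true v
    have f4 := Q1_lem' act h k₀ u hxy hx hy false true v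
    have f5 := Q3_lem' act h k₀ u hxy hx hy true true v
    have f6 := P3_lem act h k₀ u hxy hx hy true true v
    simp only [Bool.not_true, Bool.not_false] at f1 f2 f3 f4 f5 f6
    simp only [LinearMap.add_apply, LinearMap.sub_apply, LinearMap.zero_apply]
    rw [f1, f2, f3, f4, f5, f6]
    simp only [ε, if_true, Bool.false_eq_true, if_false]
    linear_combination (norm := module) (-cs u) • K0
  · rw [map_add, map_add, map_sub, map_sub, map_sub,
      Phi_el_not act h k₀ (fun h1 => hD (i1.1 h1)), Phi_el_not act h k₀ (fun h1 => hD (i2.1 h1)),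
      Phi_el_not act h k₀ (fun h1 => hD (i3.1 h1)), Phi_el_not act h k₀ (fun h1 => hD (i4.1 h1)),
      Phi_el_not act h k₀ (fun h1 => hD (i5.1 h1)), Phi_el_not act h k₀ (fun h1 => hD (i6.1 h1))]
    simp

theorem six_3 {dl : K → (K × K →₀ ℚ)} (h1 : R1 h dl) (h2 : R2 act h dl)
    (u : Fin 4 → List (Pt d)) (τ : Equiv.Perm (Fin 3)) (x y : Fin d)
    (t0 : τ 0 = 1) (t1 : τ 1 = 2) (t2 : τ 2 = 0) :
    Phi d act h k₀ (sixT u τ x y) = 0 := by
  have e1 : pr u τ x y 0 1 0 2 = W u [(x, false)] [(y, false)] [(x, true), (y, true)] := by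
    simp [pr, ep, W, t0, t1, t2]
  have e2 : pr u τ x y 0 2 0 1 = W u [(y, false)] [(x, false)] [(x, true), (y, true)] := by
    simp [pr, ep, W, t0, t1, t2]
  have e3 : pr u τ x y 0 1 1 2 = W u [(x, false), (y, true)] [(y, false)] [(x, true)] := by
    simp [pr, ep, W, t0, t1, t2]
  have e4 : pr u τ x y 1 2 0 1 = W u [(x, true), (y, false)] [(x, false)] [(y, true)] := by
    simp [pr, ep, W, t0, t1, t2]
  have e5 : pr u τ x y 0 2 1 2 = W u [(y, true)] [(x, false), (y, false)] [(x, true)] := by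
    simp [pr, ep, W, t0, t1, t2]
  have e6 : pr u τ x y 1 2 0 2 = W u [(x, true)] [(x, false), (y, false)] [(y, true)] := by
    simp [pr, ep, W, t0, t1, t2]
  have i1 := isD_W u [(x, false)] [(y, false)] [(x, true), (y, true)] x y (by
    intro p
    simp only [L4, List.count_cons, List.count_nil]
    ring)
  have i2 := isD_W u [(y, false)] [(x, false)] [(x, true), (y, true)] x y (by
    intro p
    simp only [L4, List.count_cons, List.count_nil]
    ring)
  have i3 := isD_W u [(x, false), (y, true)] [(y, false)] [(x, true)] x y (by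
    intro p
    simp only [L4, List.count_cons, List.count_nil]
    ring)
  have i4 := isD_W u [(x, true), (y, false)] [(x, false)] [(y, true)] x y (by
    intro p
    simp only [L4, List.count_cons, List.count_nil]
    ring)
  have i5 := isD_W u [(y, true)] [(x, false), (y, false)] [(x, true)] x y (by
    intro p
    simp only [L4, List.count_cons, List.count_nil]
    ring)
  have i6 := isD_W u [(x, true)] [(x, false), (y, false)] [(y, true)] x y (by
    intro p
    simp only [L4, List.count_cons, List.count_nil]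
    ring)
  rw [sixT, e1, e2, e3, e4, e5, e6]
  by_cases hD : IsD (u 0 ++ u 1 ++ u 2 ++ u 3 ++ L4 x y)
  · obtain ⟨hxy, hx, hy⟩ := isD_base hD
    ext v
    rw [map_add, map_add, map_sub, map_sub, map_sub, Phi_el act h k₀ (i1.2 hD),
      Phi_el act h k₀ (i2.2 hD), Phi_el act h k₀ (i3.2 hD), Phi_el act h k₀ (i4.2 hD),
      Phi_el act h k₀ (i5.2 hD), Phi_el act h k₀ (i6.2 hD)]
    have K0 := key_EV act h k₀ h1 h2 hxy
      (MC act h k₀ (u 0) (ns (u 1) ∪ ns (u 2) ∪ ns (u 3)))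
      (Cm_MC act h k₀ (u 1) (ns (u 2) ∪ ns (u 3)) (hx 1))
      (Cm_MC act h k₀ (u 1) (ns (u 2) ∪ ns (u 3)) (hy 1))
      (Cm_MC act h k₀ (u 2) (ns (u 3)) (hx 2)) (Cm_MC act h k₀ (u 2) (ns (u 3)) (hy 2))
      (Cm_MC act h k₀ (u 3) ∅ (hx 3)) (Cm_MC act h k₀ (u 3) ∅ (hy 3)) v
    have f1 := P3_lem act h k₀ u hxy hx hy false false v
    have f2 := Q3_lem' act h k₀ u hxy hx hy false false v
    have f3 := Q1_lem' act h k₀ u hxy hx hy true false v
    have f4 := P1_lem act h k₀ u hxy hx hy true false v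
    have f5 := Q2_lem' act h k₀ u hxy hx hy true false v
    have f6 := P2_lem act h k₀ u hxy hx hy true false v
    simp only [Bool.not_true, Bool.not_false] at f1 f2 f3 f4 f5 f6
    simp only [LinearMap.add_apply, LinearMap.sub_apply, LinearMap.zero_apply]
    rw [f1, f2, f3, f4, f5, f6]
    simp only [ε, if_true, Bool.false_eq_true, if_false]
    linear_combination (norm := module) (cs u) • K0
  · rw [map_add, map_add, map_sub, map_sub, map_sub,
      Phi_el_not act h k₀ (fun h1 => hD (i1.1 h1)), Phi_el_not act h k₀ (fun h1 => hD (i2.1 h1)),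
      Phi_el_not act h k₀ (fun h1 => hD (i3.1 h1)), Phi_el_not act h k₀ (fun h1 => hD (i4.1 h1)),
      Phi_el_not act h k₀ (fun h1 => hD (i5.1 h1)), Phi_el_not act h k₀ (fun h1 => hD (i6.1 h1))]
    simp

theorem six_4 {dl : K → (K × K →₀ ℚ)} (h1 : R1 h dl) (h2 : R2 act h dl)
    (u : Fin 4 → List (Pt d)) (τ : Equiv.Perm (Fin 3)) (x y : Fin d)
    (t0 : τ 0 = 2) (t1 : τ 1 = 0) (t2 : τ 2 = 1) :
    Phi d act h k₀ (sixT u τ x y) = 0 := by
  have e1 : pr u τ x y 0 1 0 2 = W u [(y, false)] [(x, true), (y, true)] [(x, false)] := by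
    simp [pr, ep, W, t0, t1, t2]
  have e2 : pr u τ x y 0 2 0 1 = W u [(x, false)] [(x, true), (y, true)] [(y, false)] := by
    simp [pr, ep, W, t0, t1, t2]
  have e3 : pr u τ x y 0 1 1 2 = W u [(y, false)] [(x, true)] [(x, false), (y, true)] := by
    simp [pr, ep, W, t0, t1, t2]
  have e4 : pr u τ x y 1 2 0 1 = W u [(x, false)] [(y, true)] [(x, true), (y, false)] := by
    simp [pr, ep, W, t0, t1, t2]
  have e5 : pr u τ x y 0 2 1 2 = W u [(x, false), (y, false)] [(x, true)] [(y, true)] := by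
    simp [pr, ep, W, t0, t1, t2]
  have e6 : pr u τ x y 1 2 0 2 = W u [(x, false), (y, false)] [(y, true)] [(x, true)] := by
    simp [pr, ep, W, t0, t1, t2]
  have i1 := isD_W u [(y, false)] [(x, true), (y, true)] [(x, false)] x y (by
    intro p
    simp only [L4, List.count_cons, List.count_nil]
    ring)
  have i2 := isD_W u [(x, false)] [(x, true), (y, true)] [(y, false)] x y (by
    intro p
    simp only [L4, List.count_cons, List.count_nil]
    ring)
  have i3 := isD_W u [(y, false)] [(x, true)] [(x, false), (y, true)] x y (by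
    intro p
    simp only [L4, List.count_cons, List.count_nil]
    ring)
  have i4 := isD_W u [(x, false)] [(y, true)] [(x, true), (y, false)] x y (by
    intro p
    simp only [L4, List.count_cons, List.count_nil]
    ring)
  have i5 := isD_W u [(x, false), (y, false)] [(x, true)] [(y, true)] x y (by
    intro p
    simp only [L4, List.count_cons, List.count_nil]
    ring)
  have i6 := isD_W u [(x, false), (y, false)] [(y, true)] [(x, true)] x y (by
    intro p
    simp only [L4, List.count_cons, List.count_nil]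
    ring)
  rw [sixT, e1, e2, e3, e4, e5, e6]
  by_cases hD : IsD (u 0 ++ u 1 ++ u 2 ++ u 3 ++ L4 x y)
  · obtain ⟨hxy, hx, hy⟩ := isD_base hD
    ext v
    rw [map_add, map_add, map_sub, map_sub, map_sub, Phi_el act h k₀ (i1.2 hD),
      Phi_el act h k₀ (i2.2 hD), Phi_el act h k₀ (i3.2 hD), Phi_el act h k₀ (i4.2 hD),
      Phi_el act h k₀ (i5.2 hD), Phi_el act h k₀ (i6.2 hD)]
    have K0 := key_EV act h k₀ h1 h2 hxy
      (MC act h k₀ (u 0) (ns (u 1) ∪ ns (u 2) ∪ ns (u 3)))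
      (Cm_MC act h k₀ (u 1) (ns (u 2) ∪ ns (u 3)) (hx 1))
      (Cm_MC act h k₀ (u 1) (ns (u 2) ∪ ns (u 3)) (hy 1))
      (Cm_MC act h k₀ (u 2) (ns (u 3)) (hx 2)) (Cm_MC act h k₀ (u 2) (ns (u 3)) (hy 2))
      (Cm_MC act h k₀ (u 3) ∅ (hx 3)) (Cm_MC act h k₀ (u 3) ∅ (hy 3)) v
    have f1 := Q2_lem' act h k₀ u hxy hx hy false true v
    have f2 := P2_lem act h k₀ u hxy hx hy false true v
    have f3 := Q3_lem' act h k₀ u hxy hx hy false true v
    have f4 := P3_lem act h k₀ u hxy hx hy false true v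
    have f5 := P1_lem act h k₀ u hxy hx hy false false v
    have f6 := Q1_lem' act h k₀ u hxy hx hy false false v
    simp only [Bool.not_true, Bool.not_false] at f1 f2 f3 f4 f5 f6
    simp only [LinearMap.add_apply, LinearMap.sub_apply, LinearMap.zero_apply]
    rw [f1, f2, f3, f4, f5, f6]
    simp only [ε, if_true, Bool.false_eq_true, if_false]
    linear_combination (norm := module) (cs u) • K0
  · rw [map_add, map_add, map_sub, map_sub, map_sub,
      Phi_el_not act h k₀ (fun h1 => hD (i1.1 h1)), Phi_el_not act h k₀ (fun h1 => hD (i2.1 h1)),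
      Phi_el_not act h k₀ (fun h1 => hD (i3.1 h1)), Phi_el_not act h k₀ (fun h1 => hD (i4.1 h1)),
      Phi_el_not act h k₀ (fun h1 => hD (i5.1 h1)), Phi_el_not act h k₀ (fun h1 => hD (i6.1 h1))]
    simp

theorem six_5 {dl : K → (K × K →₀ ℚ)} (h1 : R1 h dl) (h2 : R2 act h dl)
    (u : Fin 4 → List (Pt d)) (τ : Equiv.Perm (Fin 3)) (x y : Fin d)
    (t0 : τ 0 = 2) (t1 : τ 1 = 1) (t2 : τ 2 = 0) :
    Phi d act h k₀ (sixT u τ x y) = 0 := by
  have e1 : pr u τ x y 0 1 0 2 = W u [(y, false)] [(x, false)] [(x, true), (y, true)] := by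
    simp [pr, ep, W, t0, t1, t2]
  have e2 : pr u τ x y 0 2 0 1 = W u [(x, false)] [(y, false)] [(x, true), (y, true)] := by
    simp [pr, ep, W, t0, t1, t2]
  have e3 : pr u τ x y 0 1 1 2 = W u [(y, false)] [(x, false), (y, true)] [(x, true)] := by
    simp [pr, ep, W, t0, t1, t2]
  have e4 : pr u τ x y 1 2 0 1 = W u [(x, false)] [(x, true), (y, false)] [(y, true)] := by
    simp [pr, ep, W, t0, t1, t2]
  have e5 : pr u τ x y 0 2 1 2 = W u [(x, false), (y, false)] [(y, true)] [(x, true)] := by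
    simp [pr, ep, W, t0, t1, t2]
  have e6 : pr u τ x y 1 2 0 2 = W u [(x, false), (y, false)] [(x, true)] [(y, true)] := by
    simp [pr, ep, W, t0, t1, t2]
  have i1 := isD_W u [(y, false)] [(x, false)] [(x, true), (y, true)] x y (by
    intro p
    simp only [L4, List.count_cons, List.count_nil]
    ring)
  have i2 := isD_W u [(x, false)] [(y, false)] [(x, true), (y, true)] x y (by
    intro p
    simp only [L4, List.count_cons, List.count_nil]
    ring)
  have i3 := isD_W u [(y, false)] [(x, false), (y, true)] [(x, true)] x y (by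
    intro p
    simp only [L4, List.count_cons, List.count_nil]
    ring)
  have i4 := isD_W u [(x, false)] [(x, true), (y, false)] [(y, true)] x y (by
    intro p
    simp only [L4, List.count_cons, List.count_nil]
    ring)
  have i5 := isD_W u [(x, false), (y, false)] [(y, true)] [(x, true)] x y (by
    intro p
    simp only [L4, List.count_cons, List.count_nil]
    ring)
  have i6 := isD_W u [(x, false), (y, false)] [(x, true)] [(y, true)] x y (by
    intro p
    simp only [L4, List.count_cons, List.count_nil]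
    ring)
  rw [sixT, e1, e2, e3, e4, e5, e6]
  by_cases hD : IsD (u 0 ++ u 1 ++ u 2 ++ u 3 ++ L4 x y)
  · obtain ⟨hxy, hx, hy⟩ := isD_base hD
    ext v
    rw [map_add, map_add, map_sub, map_sub, map_sub, Phi_el act h k₀ (i1.2 hD),
      Phi_el act h k₀ (i2.2 hD), Phi_el act h k₀ (i3.2 hD), Phi_el act h k₀ (i4.2 hD),
      Phi_el act h k₀ (i5.2 hD), Phi_el act h k₀ (i6.2 hD)]
    have K0 := key_EV act h k₀ h1 h2 hxy
      (MC act h k₀ (u 0) (ns (u 1) ∪ ns (u 2) ∪ ns (u 3)))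
      (Cm_MC act h k₀ (u 1) (ns (u 2) ∪ ns (u 3)) (hx 1))
      (Cm_MC act h k₀ (u 1) (ns (u 2) ∪ ns (u 3)) (hy 1))
      (Cm_MC act h k₀ (u 2) (ns (u 3)) (hx 2)) (Cm_MC act h k₀ (u 2) (ns (u 3)) (hy 2))
      (Cm_MC act h k₀ (u 3) ∅ (hx 3)) (Cm_MC act h k₀ (u 3) ∅ (hy 3)) v
    have f1 := Q3_lem' act h k₀ u hxy hx hy false false v
    have f2 := P3_lem act h k₀ u hxy hx hy false false v
    have f3 := Q2_lem' act h k₀ u hxy hx hy false false v
    have f4 := P2_lem act h k₀ u hxy hx hy false false v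
    have f5 := Q1_lem' act h k₀ u hxy hx hy false false v
    have f6 := P1_lem act h k₀ u hxy hx hy false false v
    simp only [Bool.not_true, Bool.not_false] at f1 f2 f3 f4 f5 f6
    simp only [LinearMap.add_apply, LinearMap.sub_apply, LinearMap.zero_apply]
    rw [f1, f2, f3, f4, f5, f6]
    simp only [ε, if_true, Bool.false_eq_true, if_false]
    linear_combination (norm := module) (-cs u) • K0
  · rw [map_add, map_add, map_sub, map_sub, map_sub,
      Phi_el_not act h k₀ (fun h1 => hD (i1.1 h1)), Phi_el_not act h k₀ (fun h1 => hD (i2.1 h1)),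
      Phi_el_not act h k₀ (fun h1 => hD (i3.1 h1)), Phi_el_not act h k₀ (fun h1 => hD (i4.1 h1)),
      Phi_el_not act h k₀ (fun h1 => hD (i5.1 h1)), Phi_el_not act h k₀ (fun h1 => hD (i6.1 h1))]
    simp

theorem Phi_sixT {dl : K → (K × K →₀ ℚ)} (h1 : R1 h dl) (h2 : R2 act h dl)
    (u : Fin 4 → List (Pt d)) (τ : Equiv.Perm (Fin 3)) (x y : Fin d) :
    Phi d act h k₀ (sixT u τ x y) = 0 := by
  have hτ : (τ 0 = 0 ∧ τ 1 = 1 ∧ τ 2 = 2) ∨
      (τ 0 = 0 ∧ τ 1 = 2 ∧ τ 2 = 1) ∨
      (τ 0 = 1 ∧ τ 1 = 0 ∧ τ 2 = 2) ∨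
      (τ 0 = 1 ∧ τ 1 = 2 ∧ τ 2 = 0) ∨
      (τ 0 = 2 ∧ τ 1 = 0 ∧ τ 2 = 1) ∨
      (τ 0 = 2 ∧ τ 1 = 1 ∧ τ 2 = 0) := by
    revert τ
    decide
  rcases hτ with ⟨a, b, c⟩ | ⟨a, b, c⟩ | ⟨a, b, c⟩ | ⟨a, b, c⟩ | ⟨a, b, c⟩ | ⟨a, b, c⟩
  · exact six_0 act h k₀ h1 h2 u τ x y a b c
  · exact six_1 act h k₀ h1 h2 u τ x y a b c
  · exact six_2 act h k₀ h1 h2 u τ x y a b c
  · exact six_3 act h k₀ h1 h2 u τ x y a b c
  · exact six_4 act h k₀ h1 h2 u τ x y a b c
  · exact six_5 act h k₀ h1 h2 u τ x y a b c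

end final

/-- Packet WS. -/
theorem stmtWS : StmtWS := by
  intro K E _ _ act h dl k₀ h1 h2 d
  refine ⟨Phi d act h k₀, ?_, ?_⟩
  · intro v hv
    have hle : relT d ≤ LinearMap.ker (Phi d act h k₀) := by
      unfold relT relI
      rw [sup_le_iff, Submodule.span_le, Submodule.span_le]
      constructor
      · rintro _ (⟨w, σ, rfl⟩ | ⟨u, τ, x, y, rfl⟩)
        · exact Phi_ren act h k₀ σ w
        · exact Phi_sixT act h k₀ h1 h2 u τ x y
      · rintro _ ⟨x, w, rfl⟩
        exact Phi_rev act h k₀ x w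
    exact hle hv
  · intro σ v
    rw [Phi_el act h k₀ (isD_lr _ _)]
    exact phi_lr act h k₀ σ v

end Pool.Agent.Helper49.AD
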