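import Pool.Agent.Helper49.AD.Ops
import Pool.Agent.Helper88.AD.Basic

/-!
MP_ccb3f4_gt, packet AD-WS, part 2: the operator word and the sign of a diagram.
-/

set_option autoImplicit false

namespace Pool.Agent.Helper49.AD

open Pool.Agent.Helper88.AD

section words

variable {d : ℕ}

/-- The names occurring in a word. -/
def ns (w : List (Pt d)) : Finset (Fin d) := (w.map Prod.fst).toFinset

theorem mem_ns {w : List (Pt d)} {x : Fin d} : x ∈ ns w ↔ ∃ p ∈ w, p.1 = x := by
  simp [ns]

theorem mem_ns_of {w : List (Pt d)} {p : Pt d} (hp : p ∈ w) : p.1 ∈ ns w :=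
  mem_ns.2 ⟨p, hp, rfl⟩

@[simp] theorem ns_nil : ns ([] : List (Pt d)) = ∅ := rfl

@[simp] theorem ns_cons (p : Pt d) (w : List (Pt d)) : ns (p :: w) = insert p.1 (ns w) := by
  simp [ns]

@[simp] theorem ns_append (u v : List (Pt d)) : ns (u ++ v) = ns u ∪ ns v := by
  simp [ns]

/-- The sign. -/
def sg : List (Pt d) → Finset (Fin d) → ℚ
  | [], _ => 1
  | p :: u, T => (if p.1 ∉ ns u ∪ T ∧ p.2 = true then -1 else 1) * sg u T

theorem sg_append (u v : List (Pt d)) (T : Finset (Fin d)) :
    sg (u ++ v) T = sg u (ns v ∪ T) * sg v T := by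
  induction u with
  | nil => simp [sg]
  | cons p u ih => rw [List.cons_append, sg, ih, sg, ns_append, Finset.union_assoc, mul_assoc]

theorem sg_congr (u : List (Pt d)) (T T' : Finset (Fin d))
    (hT : ∀ p ∈ u, (p.1 ∈ T ↔ p.1 ∈ T')) : sg u T = sg u T' := by
  induction u with
  | nil => rfl
  | cons p u ih =>
    rw [sg, sg, ih fun q hq => hT q (List.mem_cons_of_mem _ hq)]
    simp only [Finset.mem_union, hT p List.mem_cons_self]

theorem sg_mem (u : List (Pt d)) (T : Finset (Fin d)) (hT : ∀ p ∈ u, p.1 ∈ T) : sg u T = 1 := by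
  induction u with
  | nil => rfl
  | cons p u ih =>
    rw [sg, ih fun q hq => hT q (List.mem_cons_of_mem _ hq), if_neg, mul_one]
    intro hh
    exact hh.1 (Finset.mem_union_right _ (hT p List.mem_cons_self))

theorem sg_false (u : List (Pt d)) (T : Finset (Fin d)) (hT : ∀ p ∈ u, p.2 = false) :
    sg u T = 1 := by
  induction u with
  | nil => rfl
  | cons p u ih =>
    rw [sg, ih fun q hq => hT q (List.mem_cons_of_mem _ hq), if_neg, mul_one]
    intro hh
    rw [hT p List.mem_cons_self] at hh
    exact absurd hh.2 (by simp)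

variable {K E : Type} [AddCommGroup E] [Module ℚ E]
  (act : K → Module.End ℚ E) (h : E →ₗ[ℚ] (K →₀ E)) (k₀ : K)

/-- The operator word. -/
noncomputable def MC : List (Pt d) → Finset (Fin d) → Module.End ℚ (St d K E)
  | [], _ => 1
  | p :: u, T => (if p.1 ∈ ns u ∪ T then ac act k₀ p.1 else hd h p.1) * MC u T

theorem MC_append (u v : List (Pt d)) (T : Finset (Fin d)) :
    MC act h k₀ (u ++ v) T = MC act h k₀ u (ns v ∪ T) * MC act h k₀ v T := by
  induction u with
  | nil => simp [MC]
  | cons p u ih => rw [List.cons_append, MC, ih, MC, ns_append, Finset.union_assoc, mul_assoc]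

theorem MC_congr (u : List (Pt d)) (T T' : Finset (Fin d))
    (hT : ∀ p ∈ u, (p.1 ∈ T ↔ p.1 ∈ T')) : MC act h k₀ u T = MC act h k₀ u T' := by
  induction u with
  | nil => rfl
  | cons p u ih =>
    rw [MC, MC, ih fun q hq => hT q (List.mem_cons_of_mem _ hq)]
    simp only [Finset.mem_union, hT p List.mem_cons_self]

theorem MC_mem (u : List (Pt d)) (T : Finset (Fin d)) (hT : ∀ p ∈ u, p.1 ∈ T) :
    MC act h k₀ u T = (u.map fun p => ac act k₀ p.1).prod := by
  induction u with
  | nil => rfl
  | cons p u ih =>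
    rw [MC, ih fun q hq => hT q (List.mem_cons_of_mem _ hq), if_pos, List.map_cons,
      List.prod_cons]
    exact Finset.mem_union_right _ (hT p List.mem_cons_self)

theorem MC_nodup (u : List (Pt d)) (T : Finset (Fin d)) (hn : (u.map Prod.fst).Nodup)
    (hT : ∀ p ∈ u, p.1 ∉ T) : MC act h k₀ u T = (u.map fun p => hd h p.1).prod := by
  induction u with
  | nil => rfl
  | cons p u ih =>
    rw [List.map_cons, List.nodup_cons] at hn
    rw [MC, ih hn.2 fun q hq => hT q (List.mem_cons_of_mem _ hq), if_neg, List.map_cons,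
      List.prod_cons]
    rw [Finset.mem_union]
    rintro (h1 | h1)
    · exact hn.1 (by simpa [ns] using h1)
    · exact hT p List.mem_cons_self h1

theorem Cm_one (x : Fin d) : Cm (1 : Module.End ℚ (St d K E)) x := fun _ _ => rfl

theorem Cm_mul {U V : Module.End ℚ (St d K E)} {x : Fin d} (hU : Cm U x) (hV : Cm V x) :
    Cm (U * V) x := by
  intro k s
  rw [Module.End.mul_apply, Module.End.mul_apply, hV, hU]

theorem Cm_MC {x : Fin d} (u : List (Pt d)) (T : Finset (Fin d)) (hx : x ∉ ns u) :
    Cm (MC act h k₀ u T) x := by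
  induction u with
  | nil => exact Cm_one x
  | cons p u ih =>
    rw [ns_cons, Finset.mem_insert, not_or] at hx
    rw [MC]
    refine Cm_mul ?_ (ih hx.2)
    split_ifs with h1
    · intro k s
      exact ac_S act k₀ (Ne.symm hx.1) k s
    · intro k s
      exact hd_S h (Ne.symm hx.1) k s

/-! ### Renaming -/

/-- Renaming the slots. -/
noncomputable def Tr (K E : Type) [AddCommGroup E] [Module ℚ E] (s : Equiv.Perm (Fin d)) :
    Module.End ℚ (St d K E) :=
  Finsupp.lmapDomain E ℚ (fun n => n ∘ s.symm)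

theorem Tr_single (s : Equiv.Perm (Fin d)) (n : Fin d → K) (v : E) :
    Tr K E s (Finsupp.single n v) = Finsupp.single (n ∘ s.symm) v := by
  simp [Tr]

theorem update_comp_symm (s : Equiv.Perm (Fin d)) (n : Fin d → K) (z : Fin d) (k : K) :
    Function.update n z k ∘ s.symm = Function.update (n ∘ s.symm) (s z) k := by
  funext i
  by_cases hi : i = s z
  · subst hi
    simp
  · rw [Function.update_of_ne hi, Function.comp_apply, Function.comp_apply,
      Function.update_of_ne]
    intro h1
    exact hi (by rw [← h1, Equiv.apply_symm_apply])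

theorem Tr_hd (s : Equiv.Perm (Fin d)) (z : Fin d) (t : St d K E) :
    Tr K E s (hd h z t) = hd h (s z) (Tr K E s t) := by
  have : Tr K E s ∘ₗ hd h z = hd h (s z) ∘ₗ Tr K E s := by
    apply Finsupp.lhom_ext
    intro n v
    rw [LinearMap.comp_apply, LinearMap.comp_apply, Tr_single, hd_single, hd_single,
      map_finsuppSum]
    refine Finsupp.sum_congr fun l _ => ?_
    rw [Tr_single, update_comp_symm]
  exact LinearMap.congr_fun this t

theorem Tr_ac (s : Equiv.Perm (Fin d)) (z : Fin d) (t : St d K E) :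
    Tr K E s (ac act k₀ z t) = ac act k₀ (s z) (Tr K E s t) := by
  have : Tr K E s ∘ₗ ac act k₀ z = ac act k₀ (s z) ∘ₗ Tr K E s := by
    apply Finsupp.lhom_ext
    intro n v
    rw [LinearMap.comp_apply, LinearMap.comp_apply, Tr_single, ac_single, ac_single,
      Tr_single, update_comp_symm, Function.comp_apply, Equiv.symm_apply_apply]
  exact LinearMap.congr_fun this t

theorem ns_ren (s : Equiv.Perm (Fin d)) (w : List (Pt d)) :
    ns (ren s w) = (ns w).image s := by
  ext z
  rw [mem_ns, Finset.mem_image]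
  constructor
  · rintro ⟨p, hp, rfl⟩
    obtain ⟨q, hq, rfl⟩ := List.mem_map.1 hp
    exact ⟨q.1, mem_ns_of hq, rfl⟩
  · rintro ⟨a, ha, rfl⟩
    obtain ⟨q, hq, rfl⟩ := mem_ns.1 ha
    exact ⟨(s q.1, q.2), List.mem_map.2 ⟨q, hq, rfl⟩, rfl⟩

theorem MC_ren (s : Equiv.Perm (Fin d)) (w : List (Pt d)) (T : Finset (Fin d))
    (t : St d K E) :
    MC act h k₀ (ren s w) (T.image s) (Tr K E s t) = Tr K E s (MC act h k₀ w T t) := by
  induction w with
  | nil => rfl
  | cons p u ih =>
    have e : ren s (p :: u) = (s p.1, p.2) :: ren s u := rfl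
    rw [e, MC, MC, Module.End.mul_apply, Module.End.mul_apply, ih, ns_ren,
      ← Finset.image_union]
    have h1 : (s p.1 ∈ (ns u ∪ T).image s) ↔ p.1 ∈ ns u ∪ T := by
      rw [Finset.mem_image]
      constructor
      · rintro ⟨a, ha, hs⟩
        rw [← s.injective hs]
        exact ha
      · intro h2
        exact ⟨_, h2, rfl⟩
    by_cases h2 : p.1 ∈ ns u ∪ T
    · rw [if_pos h2, if_pos (h1.2 h2), Tr_ac]
    · rw [if_neg h2, if_neg (fun h3 => h2 (h1.1 h3)), Tr_hd]

theorem sg_ren (s : Equiv.Perm (Fin d)) (w : List (Pt d)) (T : Finset (Fin d)) :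
    sg (ren s w) (T.image s) = sg w T := by
  induction w with
  | nil => rfl
  | cons p u ih =>
    have e : ren s (p :: u) = (s p.1, p.2) :: ren s u := rfl
    rw [e, sg, sg, ih, ns_ren, ← Finset.image_union]
    have h1 : (s p.1 ∈ (ns u ∪ T).image s) ↔ p.1 ∈ ns u ∪ T := by
      rw [Finset.mem_image]
      constructor
      · rintro ⟨a, ha, hs⟩
        rw [← s.injective hs]
        exact ha
      · intro h2
        exact ⟨_, h2, rfl⟩
    simp only [h1]

/-! ### Reversal -/

theorem ns_rev (x : Fin d) (w : List (Pt d)) : ns (rev x w) = ns w := by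
  unfold ns rev
  rw [List.map_map]
  congr 1
  apply List.map_congr_left
  intro p _
  simp only [Function.comp_apply]
  split_ifs <;> rfl

theorem rev_cons (x : Fin d) (p : Pt d) (u : List (Pt d)) :
    rev x (p :: u) = (if p.1 = x then (p.1, !p.2) else p) :: rev x u := rfl

theorem MC_rev (x : Fin d) (w : List (Pt d)) (T : Finset (Fin d)) :
    MC act h k₀ (rev x w) T = MC act h k₀ w T := by
  induction w with
  | nil => rfl
  | cons p u ih =>
    have e : (if p.1 = x then (p.1, !p.2) else p).1 = p.1 := by split_ifs <;> rfl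
    rw [rev_cons, MC, MC, ih, ns_rev, e]

theorem sg_rev (x : Fin d) (w : List (Pt d)) (T : Finset (Fin d)) :
    sg (rev x w) T = sg w T * (if x ∈ ns w ∧ x ∉ T then -1 else 1) := by
  induction w with
  | nil => simp [sg, rev]
  | cons p u ih =>
    rw [rev_cons, sg, sg, ih, ns_rev, ns_cons]
    by_cases hp : p.1 = x
    · subst hp
      rw [if_pos rfl]
      by_cases h1 : p.1 ∈ T
      · simp [h1]
      · by_cases h2 : p.1 ∈ ns u
        · simp [h1, h2]
        · cases h3 : p.2 <;> simp [h1, h2]
    · rw [if_neg hp]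
      simp only [Finset.mem_insert, Ne.symm hp, false_or]
      ring

end words

end Pool.Agent.Helper49.AD
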